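import Pool.Agent.Q67.QM.CB

set_option autoImplicit false

namespace Q67.QM

variable {n : ℕ}

/-- Pumping: every value of a finite state map is taken on a short word. -/
theorem pump {α σ : Type*} (st : List α → σ) (g : σ → α → σ)
    (hst : ∀ w a, st (w ++ [a]) = g (st w) a) (S : Finset σ) (hS : ∀ w, st w ∈ S) :
    ∀ w : List α, ∃ w' : List α, w'.length ≤ S.card ∧ st w' = st w := by
  have happ : ∀ v w : List α, st (w ++ v) = v.foldl g (st w) := by
    intro v
    induction v with
    | nil => intro w; simp
    | cons a v ih =>
      intro w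
      have : w ++ a :: v = (w ++ [a]) ++ v := by simp
      rw [this, ih, hst]
      rfl
  intro w
  induction hN : w.length using Nat.strong_induction_on generalizing w with
  | _ N ih =>
    by_cases hle : w.length ≤ S.card
    · exact ⟨w, hle, rfl⟩
    · push Not at hle
      have hmaps : ∀ t ∈ Finset.range (w.length + 1), st (w.take t) ∈ S := fun t _ => hS _
      obtain ⟨i, hi, j, hj, hij, he⟩ := Finset.exists_ne_map_eq_of_card_lt_of_maps_to
        (s := Finset.range (w.length + 1)) (t := S) (by rw [Finset.card_range]; omega) hmaps
      wlog hlt : i < j generalizing i j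
      · exact this j hj i hi hij.symm he.symm (by omega)
      rw [Finset.mem_range] at hi hj
      have h1 : st (w.take i ++ w.drop j) = st w := by
        rw [happ, he, ← happ, List.take_append_drop]
      have h2 : (w.take i ++ w.drop j).length < N := by
        rw [List.length_append, List.length_take, List.length_drop]
        omega
      obtain ⟨w', hw', hw''⟩ := ih _ h2 (w.take i ++ w.drop j) rfl
      exact ⟨w', hw', hw''.trans h1⟩

theorem words_length (n k : ℕ) : (words n k).length = n ^ k := by
  induction k with
  | zero => simp [words]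
  | succ k ih =>
    simp only [words, List.length_flatMap, List.length_map, List.length_finRange]
    simp [ih, pow_succ]

theorem words_card_le (n k : ℕ) : (words n k).toFinset.card ≤ (n + 1) ^ k :=
  (List.toFinset_card_le _).trans ((words_length n k).le.trans (Nat.pow_le_pow_left (by omega) k))

/-- The information of a word that decides the query. -/
def atS (r : ℕ) (w : List (Fin n)) :
    List (Fin n) ⊕ (List (Fin n) × List (Fin n) × Finset (List (Fin n))) :=
  if w.length ≤ r then Sum.inl w else
    Sum.inr (w.take r, w.drop (w.length - r), (words n (r + 1)).toFinset.filter fun e => e <:+: w)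

def gS (r : ℕ) (s : List (Fin n) ⊕ (List (Fin n) × List (Fin n) × Finset (List (Fin n))))
    (a : Fin n) : List (Fin n) ⊕ (List (Fin n) × List (Fin n) × Finset (List (Fin n))) :=
  match s with
  | Sum.inl w => atS r (w ++ [a])
  | Sum.inr (P, Q, Φ) => Sum.inr (P, (Q ++ [a]).drop 1, insert (Q ++ [a]) Φ)

theorem atS_append (r : ℕ) (w : List (Fin n)) (a : Fin n) :
    atS r (w ++ [a]) = gS r (atS r w) a := by
  by_cases h : w.length ≤ r
  · have : atS r w = Sum.inl w := by unfold atS; rw [if_pos h]
    rw [this]; rfl
  · have h1 : atS r w = Sum.inr (w.take r, w.drop (w.length - r),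
        (words n (r + 1)).toFinset.filter fun e => e <:+: w) := by unfold atS; rw [if_neg h]
    push Not at h
    have hQ : (w.drop (w.length - r)).length = r := by rw [List.length_drop]; omega
    have hdrop : (w ++ [a]).drop (w.length - r) = w.drop (w.length - r) ++ [a] := by
      rw [List.drop_append_of_le_length (by omega)]
    rw [h1]
    unfold atS gS
    rw [if_neg (by simp; omega)]
    simp only [Sum.inr.injEq, Prod.mk.injEq]
    refine ⟨?_, ?_, ?_⟩
    · rw [List.take_append_of_le_length (by omega)]
    · rw [← hdrop, List.drop_drop]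
      congr 1
      simp; omega
    · ext e
      simp only [Finset.mem_filter, List.mem_toFinset, mem_words, Finset.mem_insert]
      constructor
      · rintro ⟨h2, h3⟩
        rw [List.infix_concat_iff] at h3
        rcases h3 with h3 | h3
        · left
          rw [List.suffix_iff_eq_drop] at h3
          rw [h3, h2, ← hdrop]
          congr 1
          simp
        · exact Or.inr ⟨h2, h3⟩
      · rintro (h2 | ⟨h2, h3⟩)
        · subst h2
          refine ⟨by simp [hQ], ?_⟩
          rw [← hdrop]
          exact (List.drop_suffix _ _).isInfix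
        · exact ⟨h2, h3.trans (List.prefix_append _ _).isInfix⟩

theorem step_mem (A : Auto n) (s : ℕ) (a : Fin n) :
    A.step s a ∈ insert A.1 (insert 0 (A.2.1.map fun e => e.2.2).toFinset) := by
  unfold Auto.step
  generalize hf : A.2.1.find? (fun e => decide (e.1 = s ∧ e.2.1 = a)) = o
  cases o with
  | none => simp
  | some e =>
    have := List.mem_of_find?_eq_some hf
    rw [Finset.mem_insert, Finset.mem_insert, List.mem_toFinset, List.mem_map]
    exact Or.inr (Or.inr ⟨e, this, rfl⟩)

theorem qlang_iff_of_atS (q : Query n) {w w' : List (Fin n)} (h : atS q.1 w = atS q.1 w') :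
    w ∈ qlang q ↔ w' ∈ qlang q := by
  unfold atS at h
  by_cases h1 : w.length ≤ q.1
  · by_cases h2 : w'.length ≤ q.1
    · rw [if_pos h1, if_pos h2] at h
      rw [Sum.inl.injEq] at h
      rw [h]
    · rw [if_pos h1, if_neg h2] at h
      exact absurd h (by simp)
  · by_cases h2 : w'.length ≤ q.1
    · rw [if_neg h1, if_pos h2] at h
      exact absurd h (by simp)
    · rw [if_neg h1, if_neg h2] at h
      simp only [Sum.inr.injEq, Prod.mk.injEq] at h
      obtain ⟨e1, e2, e3⟩ := h
      have hf : ∀ e : List (Fin n), (e.length = q.1 + 1 ∧ e <:+: w) ↔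
          (e.length = q.1 + 1 ∧ e <:+: w') := by
        intro e
        have := Finset.ext_iff.1 e3 e
        simpa only [Finset.mem_filter, List.mem_toFinset, mem_words] using this
      unfold qlang Atom
      simp only [Set.mem_ofPred_eq, h1, h2, false_and, false_or, e1, e2, hf]
      constructor
      · rintro ⟨τ, hτ, -, h3⟩; exact ⟨τ, hτ, by omega, h3⟩
      · rintro ⟨τ, hτ, -, h3⟩; exact ⟨τ, hτ, by omega, h3⟩

theorem atS_mem (r : ℕ) (w : List (Fin n)) :
    atS r w ∈ ((Finset.range (r + 1)).biUnion fun k => (words n k).toFinset).disjSum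
      ((words n r).toFinset ×ˢ ((words n r).toFinset ×ˢ (words n (r + 1)).toFinset.powerset)) := by
  unfold atS
  split_ifs with h
  · rw [Finset.inl_mem_disjSum, Finset.mem_biUnion]
    exact ⟨w.length, by rw [Finset.mem_range]; omega, by
      rw [List.mem_toFinset, mem_words]⟩
  · rw [Finset.inr_mem_disjSum]
    simp only [Finset.mem_product, List.mem_toFinset, mem_words, Finset.mem_powerset]
    refine ⟨by rw [List.length_take]; omega, by rw [List.length_drop]; omega, ?_⟩
    exact Finset.filter_subset _ _

theorem auto_eq (A : Auto n) (q : Query n)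
    (h : ∀ w : List (Fin n), w.length ≤ bnd A q → (w ∈ A.lang ↔ w ∈ qlang q)) :
    A.lang = qlang q := by
  classical
  have hp := pump (fun w : List (Fin n) => (w.foldl A.step A.1, atS q.1 w))
    (fun s a => (A.step s.1 a, gS q.1 s.2 a))
    (by intro w a; simp only [List.foldl_append, List.foldl_cons, List.foldl_nil, atS_append])
    ((insert A.1 (insert 0 (A.2.1.map fun e => e.2.2).toFinset)) ×ˢ
      (((Finset.range (q.1 + 1)).biUnion fun k => (words n k).toFinset).disjSum
      ((words n q.1).toFinset ×ˢ ((words n q.1).toFinset ×ˢ
        (words n (q.1 + 1)).toFinset.powerset))))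
    (by
      intro w
      rw [Finset.mem_product]
      refine ⟨?_, atS_mem _ _⟩
      rcases List.eq_nil_or_concat' w with rfl | ⟨w', a, rfl⟩
      · simp
      · simp only [List.foldl_append, List.foldl_cons, List.foldl_nil]
        exact step_mem A _ a)
  have hcard : ((insert A.1 (insert 0 (A.2.1.map fun e => e.2.2).toFinset)) ×ˢ
      (((Finset.range (q.1 + 1)).biUnion fun k => (words n k).toFinset).disjSum
      ((words n q.1).toFinset ×ˢ ((words n q.1).toFinset ×ˢ
        (words n (q.1 + 1)).toFinset.powerset)))).card ≤ bnd A q := by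
    rw [Finset.card_product, Finset.card_disjSum, Finset.card_product, Finset.card_product,
      Finset.card_powerset]
    unfold bnd
    refine Nat.mul_le_mul ?_ (Nat.add_le_add ?_ ?_)
    · refine (Finset.card_insert_le _ _).trans ?_
      refine (Nat.add_le_add_right (Finset.card_insert_le _ _) 1).trans ?_
      have := List.toFinset_card_le (A.2.1.map fun e => e.2.2)
      rw [List.length_map] at this
      omega
    · refine Finset.card_biUnion_le.trans ?_
      have : ∀ k ∈ Finset.range (q.1 + 1), (words n k).toFinset.card ≤ (n + 1) ^ q.1 := by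
        intro k hk
        rw [Finset.mem_range] at hk
        exact (words_card_le n k).trans (Nat.pow_le_pow_right (by omega) (by omega))
      refine (Finset.sum_le_card_nsmul _ _ _ this).trans ?_
      rw [Finset.card_range, smul_eq_mul]
    · rw [← mul_assoc]
      refine Nat.mul_le_mul (Nat.mul_le_mul (words_card_le n _) (words_card_le n _)) ?_
      exact Nat.pow_le_pow_right (by omega) (words_card_le n _)
  ext w
  obtain ⟨w', h1, h2⟩ := hp w
  simp only [Prod.mk.injEq] at h2
  have h3 := h w' (h1.trans hcard)
  have h4 : w ∈ A.lang ↔ w' ∈ A.lang := by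
    show w.foldl A.step A.1 ∈ A.2.2 ↔ w'.foldl A.step A.1 ∈ A.2.2
    rw [h2.1]
  rw [h4, h3]
  exact qlang_iff_of_atS q h2.2

end Q67.QM
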