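import Pool.Agent.Q67.QM.CB
import Pool.Agent.Helper806.RD.CP

set_option autoImplicit false

namespace Q67.QM

open Pool.Agent.Helper806

variable {n : ℕ}

namespace CGAux

variable {α : Type*} [Primcodable α]

@[fun_prop] theorem ctake {f : α → ℕ} {l : α → List (Fin n)} (hf : Computable f)
    (hl : Computable l) : Computable fun a => (l a).take (f a) :=
  take_computable.comp (hf.pair hl)

@[fun_prop] theorem cdrop {f : α → ℕ} {l : α → List (Fin n)} (hf : Computable f)
    (hl : Computable l) : Computable fun a => (l a).drop (f a) :=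
  drop_computable.comp (hf.pair hl)

@[fun_prop] theorem cwords {f : α → ℕ} (hf : Computable f) :
    Computable fun a => words n (f a) :=
  words_computable.comp hf

theorem cinf {f g : α → List (Fin n)} (hf : Computable f) (hg : Computable g) :
    ComputablePred fun a => f a <:+: g a :=
  RE.cp_comp cp_infix (hf.pair hg)

@[fun_prop] theorem cK {X : Set (Pt n)} (D : Dat X) {f : α → ℕ} (hf : Computable f) :
    Computable fun a => D.K (f a) := by
  unfold Dat.K
  fun_prop

end CGAux

open CGAux

theorem sat_computable {X : Set (Pt n)} (D : Dat X)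
    (hL : ∀ j, ComputablePred fun w : List (Fin n) => w ∈ D.L j) (j : Fin D.m) :
    ComputablePred fun p : ℕ × List (Fin n) => D.Sat p.1 j p.2 := by
  have h : ComputablePred fun p : ℕ × List (Fin n) =>
      ∀ e ∈ words n (p.1 + 1), e ∈ D.L j → e <:+: p.2 := by
    refine RE.cp_all_mem (p := fun (p : ℕ × List (Fin n)) (e : List (Fin n)) =>
      e ∈ D.L j → e <:+: p.2) ?_ (by fun_prop)
    refine RE.cp_imp ?_ ?_
    · exact RE.cp_comp (hL j) (by fun_prop)
    · exact cinf (by fun_prop) (by fun_prop)
  refine h.of_eq fun p => ?_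
  constructor
  · intro h e he
    exact h e (mem_words.2 he)
  · intro h e he
    exact h e (mem_words.1 he)

/-- JOB CG (file CG.lean; imports CB).  Bounded quantifiers over `words`. -/
theorem good_computable {X : Set (Pt n)} (D : Dat X)
    (hB : ComputablePred fun w : List (Fin n) => w ∈ Lang X)
    (hL : ∀ j, ComputablePred fun w : List (Fin n) => w ∈ D.L j) :
    ComputablePred fun p : ℕ × ℕ => D.Good p.1 p.2 := by
  have h : ComputablePred fun p : ℕ × ℕ =>
      ∀ W ∈ words n (p.2 + D.K p.1 + p.2), W ∈ Lang X →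
        ∃ j, (W.drop p.2).take (D.K p.1) ∈ D.L j ∧ D.core j <:+: W ∧ D.Sat p.1 j W := by
    refine RE.cp_all_mem (p := fun (p : ℕ × ℕ) (W : List (Fin n)) => W ∈ Lang X →
        ∃ j, (W.drop p.2).take (D.K p.1) ∈ D.L j ∧ D.core j <:+: W ∧ D.Sat p.1 j W) ?_
        (by fun_prop)
    refine RE.cp_imp ?_ ?_
    · exact RE.cp_comp hB (by fun_prop)
    · refine cp_ex_fin fun j => ?_
      refine RE.cp_and ?_ (RE.cp_and ?_ ?_)
      · exact RE.cp_comp (hL j) (by fun_prop)
      · exact cinf (by fun_prop) (by fun_prop)
      · exact RE.cp_comp (p := fun p : ℕ × List (Fin n) => D.Sat p.1 j p.2)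
          (f := fun x : (ℕ × ℕ) × List (Fin n) => (x.1.1, x.2)) (sat_computable D hL j)
          (by fun_prop)
  refine h.of_eq fun p => ?_
  constructor
  · intro h W hW hl
    exact h W (mem_words.2 hl) hW
  · intro h W hW hl
    exact h W hl (mem_words.1 hW)

end Q67.QM
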