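import Pool.Agent.Q67.QM.CB
import Pool.Agent.Q67.QM.CG
import Pool.Agent.Helper806.RD.CP

set_option autoImplicit false

namespace Q67.QM

open Pool.Agent.Helper806 CGAux

variable {n : ℕ}

/-- JOB CATOM (file CAtom.lean; imports CB). -/
theorem atom_computable : ComputablePred
    fun s : (ℕ × List (Fin n) × List (Fin n) × List (List (Fin n))) × List (Fin n) =>
      Atom s.1.1 s.1.2.1 s.1.2.2.1 s.1.2.2.2 s.2 := by
  have h : ComputablePred
      fun s : (ℕ × List (Fin n) × List (Fin n) × List (List (Fin n))) × List (Fin n) =>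
      (s.1.1 + 1 ≤ s.2.length ∧ s.2.take s.1.1 = s.1.2.1 ∧
        s.2.drop (s.2.length - s.1.1) = s.1.2.2.1 ∧
        (∀ e ∈ s.1.2.2.2, (e.length = s.1.1 + 1 ∧ e <:+: s.2)) ∧
        (∀ e ∈ words n (s.1.1 + 1), e <:+: s.2 → e ∈ s.1.2.2.2)) := by
    refine RE.cp_and ?_ (RE.cp_and ?_ (RE.cp_and ?_ (RE.cp_and ?_ ?_)))
    · exact RE.cp_le (by fun_prop) (by fun_prop)
    · exact RE.cp_eq (by fun_prop) (by fun_prop)
    · exact RE.cp_eq (by fun_prop) (by fun_prop)
    · refine RE.cp_all_mem (p := fun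
        (s : (ℕ × List (Fin n) × List (Fin n) × List (List (Fin n))) × List (Fin n))
        (e : List (Fin n)) => (e.length = s.1.1 + 1 ∧ e <:+: s.2)) ?_ (by fun_prop)
      refine RE.cp_and ?_ ?_
      · exact RE.cp_eq (by fun_prop) (by fun_prop)
      · exact cinf (by fun_prop) (by fun_prop)
    · refine RE.cp_all_mem (p := fun
        (s : (ℕ × List (Fin n) × List (Fin n) × List (List (Fin n))) × List (Fin n))
        (e : List (Fin n)) => (e <:+: s.2 → e ∈ s.1.2.2.2)) ?_
        (by fun_prop)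
      refine RE.cp_imp ?_ ?_
      · exact cinf (by fun_prop) (by fun_prop)
      · exact RE.cp_mem (by fun_prop) (by fun_prop)
  refine h.of_eq fun s => ?_
  unfold Atom
  refine and_congr Iff.rfl (and_congr Iff.rfl (and_congr Iff.rfl ?_))
  constructor
  · rintro ⟨h1, h2⟩ e
    exact ⟨h1 e, fun h => h2 e (mem_words.2 h.1) h.2⟩
  · intro h
    exact ⟨fun e he => (h e).1 he, fun e he hi => (h e).2 ⟨mem_words.1 he, hi⟩⟩

theorem qlang_computable : ComputablePred
    fun s : Query n × List (Fin n) => s.2 ∈ qlang s.1 := by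
  have h : ComputablePred fun s : Query n × List (Fin n) =>
      ((s.2.length ≤ s.1.1 ∧ s.2 ∈ s.1.2.2) ∨
        ∃ τ ∈ s.1.2.1, Atom s.1.1 τ.1 τ.2.1 τ.2.2 s.2) := by
    refine RE.cp_or (RE.cp_and ?_ ?_) ?_
    · exact RE.cp_le (by fun_prop) (by fun_prop)
    · exact RE.cp_mem (by fun_prop) (by fun_prop)
    · refine RE.cp_ex_mem (p := fun (s : Query n × List (Fin n))
        (τ : List (Fin n) × List (Fin n) × List (List (Fin n))) =>
          Atom s.1.1 τ.1 τ.2.1 τ.2.2 s.2) ?_ (by fun_prop)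
      exact RE.cp_comp (p := fun s : (ℕ × List (Fin n) × List (Fin n) × List (List (Fin n))) ×
        List (Fin n) => Atom s.1.1 s.1.2.1 s.1.2.2.1 s.1.2.2.2 s.2)
        (f := fun x : (Query n × List (Fin n)) × List (Fin n) × List (Fin n) ×
          List (List (Fin n)) => ((x.1.1.1, x.2.1, x.2.2.1, x.2.2.2), x.1.2))
        atom_computable (by fun_prop)
  exact h

end Q67.QM
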