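import Pool.Agent.Q67.QM.CB
import Pool.Agent.Q67.QM.CG
import Pool.Agent.Q67.QM.CAtom
import Pool.Agent.Helper806.RD.CP

set_option autoImplicit false

namespace Q67.QM

open Pool.Agent.Helper806 CGAux

variable {n : ℕ}

namespace Aut2Aux

theorem step_eq (A : Auto n) (s : ℕ) (a : Fin n) :
    A.step s a = A.2.1.foldr (fun e t => if e.1 = s ∧ e.2.1 = a then e.2.2 else t) 0 := by
  unfold Auto.step
  induction A.2.1 with
  | nil => rfl
  | cons e l ih =>
    rw [List.foldr_cons, ← ih, List.find?_cons]
    by_cases h : e.1 = s ∧ e.2.1 = a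
    · simp [h]
    · have h' : decide (e.1 = s ∧ e.2.1 = a) = false := decide_eq_false h
      rw [if_neg h, h']

theorem step_computable : Computable fun x : Auto n × ℕ × Fin n => x.1.step x.2.1 x.2.2 := by
  have h : Primrec fun x : Auto n × ℕ × Fin n =>
      x.1.2.1.foldr (fun e t => if e.1 = x.2.1 ∧ e.2.1 = x.2.2 then e.2.2 else t) 0 := by
    refine Primrec.list_foldr (f := fun x : Auto n × ℕ × Fin n => x.1.2.1)
      (g := fun _ => (0 : ℕ)) (h := fun (x : Auto n × ℕ × Fin n) (y : (ℕ × Fin n × ℕ) × ℕ) =>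
        if y.1.1 = x.2.1 ∧ y.1.2.1 = x.2.2 then y.1.2.2 else y.2) ?_ (Primrec.const 0) ?_
    · exact Primrec.fst.comp (Primrec.snd.comp Primrec.fst)
    · refine Primrec.ite (PrimrecPred.and ?_ ?_) ?_ ?_
      · exact Primrec.eq.comp (Primrec.fst.comp (Primrec.fst.comp Primrec.snd))
          (Primrec.fst.comp (Primrec.snd.comp Primrec.fst))
      · exact Primrec.eq.comp (Primrec.fst.comp (Primrec.snd.comp (Primrec.fst.comp Primrec.snd)))
          (Primrec.snd.comp (Primrec.snd.comp Primrec.fst))
      · exact Primrec.snd.comp (Primrec.snd.comp (Primrec.fst.comp Primrec.snd))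
      · exact Primrec.snd.comp Primrec.snd
  exact h.to_comp.of_eq fun x => (step_eq x.1 x.2.1 x.2.2).symm

theorem fold_computable :
    Computable fun s : Auto n × List (Fin n) => s.2.foldl s.1.step s.1.1 := by
  refine RE.list_foldl (f := fun s : Auto n × List (Fin n) => s.2)
    (g := fun s => s.1.1) (h := fun s y => s.1.step y.1 y.2) (by fun_prop) (by fun_prop) ?_
  exact step_computable.comp (g := fun x : (Auto n × List (Fin n)) × (ℕ × Fin n) =>
    (x.1.1, x.2.1, x.2.2)) (by fun_prop)

@[fun_prop] theorem cpow {α : Type*} [Primcodable α] {f g : α → ℕ} (hf : Computable f)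
    (hg : Computable g) : Computable fun x => f x ^ g x := by
  have h : Primrec₂ ((· ^ ·) : ℕ → ℕ → ℕ) := Primrec₂.unpaired'.1 Nat.Primrec.pow
  exact h.to_comp.comp hf hg

end Aut2Aux

open Aut2Aux

/-- JOB AUT2 (file Aut2.lean; imports CB, CAtom).  computability of `A.lang` and of the bound. -/
theorem lang_computable : ComputablePred fun s : Auto n × List (Fin n) => s.2 ∈ s.1.lang :=
  RE.cp_mem (f := fun s : Auto n × List (Fin n) => s.2.foldl s.1.step s.1.1)
    (l := fun s => s.1.2.2) fold_computable (by fun_prop)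

theorem bnd_computable : Computable fun s : Auto n × Query n => bnd s.1 s.2 := by
  unfold bnd
  fun_prop

theorem agree_computable : ComputablePred fun s : Auto n × Query n =>
    ∀ w : List (Fin n), w.length ≤ bnd s.1 s.2 → (w ∈ s.1.lang ↔ w ∈ qlang s.2) := by
  have hb := bnd_computable (n := n)
  have h : ComputablePred fun s : Auto n × Query n => ∀ k < bnd s.1 s.2 + 1,
      ∀ w ∈ words n k, (w ∈ s.1.lang ↔ w ∈ qlang s.2) := by
    refine RE.cp_all_lt (p := fun (s : Auto n × Query n) (k : ℕ) =>
      ∀ w ∈ words n k, (w ∈ s.1.lang ↔ w ∈ qlang s.2)) ?_ (by fun_prop)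
    refine RE.cp_all_mem (p := fun (s : (Auto n × Query n) × ℕ) (w : List (Fin n)) =>
      (w ∈ s.1.1.lang ↔ w ∈ qlang s.1.2)) ?_ (by fun_prop)
    refine RE.cp_iff ?_ ?_
    · exact RE.cp_comp (p := fun s : Auto n × List (Fin n) => s.2 ∈ s.1.lang)
        (f := fun x : ((Auto n × Query n) × ℕ) × List (Fin n) => (x.1.1.1, x.2))
        lang_computable (by fun_prop)
    · exact RE.cp_comp (p := fun s : Query n × List (Fin n) => s.2 ∈ qlang s.1)
        (f := fun x : ((Auto n × Query n) × ℕ) × List (Fin n) => (x.1.1.2, x.2))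
        qlang_computable (by fun_prop)
  refine h.of_eq fun s => ?_
  constructor
  · intro h w hw
    exact h w.length (by omega) w (mem_words.2 rfl)
  · intro h k hk w hw
    exact h w (by rw [mem_words.1 hw]; omega)

end Q67.QM
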