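import Pool.Agent.Q67.QM.LT
import Pool.Agent.Q67.QM.Aut1
import Pool.Agent.Q67.QM.Aut2
import Pool.Agent.Helper806.RD.CP

set_option autoImplicit false

namespace Q67.QM

open Pool.Agent.Helper806

variable {n : ℕ}

/-- JOB AUT3 (file Aut3.lean; imports LT, Aut1, Aut2).  `RE.uniformize` of the relation of
`agree_computable` gives a partial recursive `g : Auto →. Query`, defined at all `A` with locally
testable language (`locallyTestable_iff`), with `qlang (g A) = A.lang` (`auto_eq`); compose with the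
decision of `hq`. -/
theorem auto_decidable {X : Set (Pt n)}
    (hq : ComputablePred fun q : Query n => ∃ w ∈ Lang X, w ∈ qlang q) :
    ∃ f : Auto n →. Bool, Partrec f ∧ ∀ A : Auto n, IsLocallyTestable A.lang →
      ∃ b, b ∈ f A ∧ (b = true ↔ ∃ w ∈ Lang X, w ∈ A.lang) := by
  obtain ⟨g, hg, hdom, hmem⟩ := RE.uniformize (r := fun (A : Auto n) (q : Query n) =>
    ∀ w : List (Fin n), w.length ≤ bnd A q → (w ∈ A.lang ↔ w ∈ qlang q)) agree_computable.to_re
  obtain ⟨hdec, hD⟩ := hq
  refine ⟨fun A => (g A).map fun q => decide (∃ w ∈ Lang X, w ∈ qlang q),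
    hg.map ((hD.comp Computable.snd).to₂), fun A hA => ?_⟩
  obtain ⟨q, hq⟩ := (locallyTestable_iff A.lang).1 hA
  have hd : (g A).Dom := (hdom A).2 ⟨q, fun w _ => by rw [hq]⟩
  have hm : (g A).get hd ∈ g A := Part.get_mem hd
  have he := auto_eq A _ (hmem A _ hm)
  refine ⟨decide (∃ w ∈ Lang X, w ∈ qlang ((g A).get hd)), Part.mem_map _ hm, ?_⟩
  rw [decide_eq_true_iff, ← he]

end Q67.QM
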