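import Pool.Agent.Q67.QM.Coord

set_option autoImplicit false

namespace Q67.QM

variable {n : ℕ}

/-- JOB LOC1 (file Loc1.lean; imports W).  `big = word x i0 _` for some `x ∈ X`; positions relative
to `w`: `w` occupies `[0, |w|)`, `T` the first `|T| ≥ 2ρ+2K` letters, `T'` the last
`q ≥ 2ρ+2K`.  Let `e` (length `r+1`) occur in `w` at `P`, not inside `T` and not inside `T'`: so
`P + r + 1 > |T|` and `P < |w| - q`.  Then `[P - ρ, P + K + ρ)` is inside `w`; `Good` gives `j`
with the block `[P, P + K)` in `L j` (so `e ∈ L j`), `core j` occurring at some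
`P'' ∈ [P - ρ, P + K + ρ - d]`, and `Sat r j` of this block.  If `P'' ≥ |T| - d` and
`P'' + d ≤ |w| - q + d`, the occurrence is inside `Z`: third alternative.  If `P'' < |T| - d`: the
occurrence is inside `T`, in the coordinate of `x l` (`T` ends at `b + β`) its position is
`≥ (b + β) - r - 1 - ρ ≥ B` since `b ≥ ρ + K`; by `jr_not` `j ∈ Jr l`, so `LG` gives `Sat r j T`
and `e <:+: T`.  If `P'' > |w| - q`: the occurrence is inside `T'`, in the coordinate of `x i` (`T'`
starts at `-(a' + β)`) it ends at `≤ -(a' + β) + K + ρ ≤ -B`, by `jl_not` `j ∈ Jl i` and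
`e <:+: T'`. -/
theorem loc1 {X : Set (Pt n)} (D : Dat X) {r ρ : ℕ} (hg : D.Good r ρ) {u v : List (Fin n)}
    {l i : Fin D.m} {a b p a' b' q : ℕ} (hl : D.LG r ρ u l a b p) (hr : D.RG r ρ v i a' b' q)
    (m' : List (Fin n))
    (hbig : D.win l a (b + D.β) ++ m' ++ D.win i (a' + D.β) b' ∈ Lang X) (e : List (Fin n))
    (he : e.length = r + 1) (hew : e <:+: D.TL l a b p ++ m' ++ D.TR i a' b' q) :
    e <:+: D.TL l a b p ∨ e <:+: D.TR i a' b' q ∨
      ∃ j, e ∈ D.L j ∧ D.core j <:+: D.Z l i a (b + D.β) (a' + D.β) b' m' := by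
  obtain ⟨x, hx, hT, -, hT', hw, hZ, hcl, hcr⟩ := coords D hl hr m' hbig
  have hK : D.K r = r + 1 + D.d := rfl
  have hβ : D.β = D.B + 2 * D.d := rfl
  obtain ⟨-, hl2, hl3, hl4⟩ := hl
  obtain ⟨-, hr1, hr2, hr3, hr4⟩ := hr
  set t1 := a + (b + D.β) - p with ht1
  have ht1' : 2 * ρ + 2 * D.K r ≤ t1 := by omega
  rw [hw, infix_word, he] at hew
  obtain ⟨P, hP, hPe⟩ := hew
  rw [zero_add] at hPe
  by_cases c1 : P + (r + 1) ≤ t1
  · left
    rw [hT, infix_word, he]
    exact ⟨P, c1, by rw [zero_add]; exact hPe⟩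
  by_cases c2 : t1 + m'.length ≤ P
  · right; left
    rw [hT', infix_word, he]
    refine ⟨P - (t1 + m'.length), by omega, ?_⟩
    rw [← hPe]
    congr 1
    omega
  obtain ⟨j, h1, ⟨P', hP1, hP2, hPc⟩, h3⟩ := local_good D hg hx (P : ℤ)
  have hej : e ∈ D.L j := by
    refine PLang_infix h1 ?_
    rw [← hPe]
    exact block_infix x le_rfl (by omega)
  by_cases c3 : (t1 : ℤ) - D.d ≤ P'
  · by_cases c4 : P' ≤ t1 + m'.length
    · right; right
      refine ⟨j, hej, ?_⟩
      rw [hZ, ← hPc]
      exact block_infix x c3 (by push_cast; omega)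
    · right; left
      have hjl : j ∈ D.Jl i := by
        by_contra hne
        refine D.jl_not i j hne (P' - (t1 + m'.length) - (a' + D.β)) (by push_cast; omega) ?_
        show _ = D.core j
        rw [← hPc, word_eq_iff]
        intro t ht
        have h5 := hcr (P' - (t1 + m'.length) + t).toNat (by omega)
        have e1 : P' + t = ((t1 + m'.length : ℕ) : ℤ) +
            ((P' - (t1 + m'.length) + t).toNat : ℤ) := by
          push_cast; omega
        rw [e1, h5]
        congr 1
        push_cast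
        omega
      exact hr4 j hjl e he hej
  · left
    have hjr : j ∈ D.Jr l := by
      by_contra hne
      refine D.jr_not l j hne (P' + ((p : ℤ) - a)) (by omega) ?_
      show _ = D.core j
      rw [← hPc, word_eq_iff]
      intro t ht
      have h5 := hcl (P' + t).toNat (by omega)
      have e1 : P' + t = ((P' + t).toNat : ℤ) := by omega
      rw [e1, h5]
      congr 1
      omega
    exact hl4 j hjr e he hej

end Q67.QM
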