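import Pool.Agent.Q67.QM.Coord

set_option autoImplicit false

namespace Q67.QM

variable {n : ℕ}

/-- JOB LOC2 (file Loc2.lean; imports W).  Same positions.  An occurrence of `core j` in `Z` starts
at some `P` with `|T| - d ≤ P ≤ |w| - q`; the block `[P - ρ, P + K + ρ)` is inside `w` (as
`|T|, q ≥ 2ρ+2K` and `d ≤ K`); `Good` gives `j'` with the block `[P, P + K)` in `L j'`, so its
prefix `core j ∈ L j'`, so `L j ⊆ L j'` (`core_sub`), and `Sat r j'` of this block, so all words of
length `r + 1` of `L j` are factors of `w`. -/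
theorem loc2 {X : Set (Pt n)} (D : Dat X) {r ρ : ℕ} (hg : D.Good r ρ) {u v : List (Fin n)}
    {l i : Fin D.m} {a b p a' b' q : ℕ} (hl : D.LG r ρ u l a b p) (hr : D.RG r ρ v i a' b' q)
    (m' : List (Fin n))
    (hbig : D.win l a (b + D.β) ++ m' ++ D.win i (a' + D.β) b' ∈ Lang X) (j : Fin D.m)
    (hj : D.core j <:+: D.Z l i a (b + D.β) (a' + D.β) b' m') :
    D.Sat r j (D.TL l a b p ++ m' ++ D.TR i a' b' q) := by
  obtain ⟨x, hx, -, -, -, hw, hZ, -, -⟩ := coords D hl hr m' hbig
  have hK : D.K r = r + 1 + D.d := rfl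
  have hl2 := hl.2.1
  have hr1 := hr.2.1
  set t1 := a + (b + D.β) - p with ht1
  have ht1' : 2 * ρ + 2 * D.K r ≤ t1 := by omega
  have hcl : (D.core j).length = D.d := word_length _ _ _
  rw [hZ, infix_word, hcl] at hj
  obtain ⟨t, ht, hte⟩ := hj
  obtain ⟨j', h1, -, h3⟩ := local_good D hg hx (((t1 : ℤ) - D.d) + t)
  intro e he hej
  rw [hw]
  have h4 : D.core j ∈ D.L j' := by
    refine PLang_infix h1 ?_
    rw [← hte]
    exact block_infix x le_rfl (by omega)
  have h5 : e ∈ D.L j' := D.core_sub j' j h4 hej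
  refine (h3 e he h5).trans (block_infix x (by omega) ?_)
  push_cast
  omega

end Q67.QM
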