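import Pool.Agent.Q67.QM.W
import Pool.Agent.Q67.QM.Loc1
import Pool.Agent.Q67.QM.Loc2

set_option autoImplicit false

namespace Q67.QM

variable {n : ℕ}

/-- JOB BWD (file Bwd.lean; imports W, Loc1, Loc2).  `Link` gives `m'`; `w = T ++ m' ++ T'` is a
factor of `big ∈ Lang X`.  Prefix and suffix are clear (`|T|, |T'| ≥ r`).  If `e ∈ F`: by `Cover`
it has length `r + 1` and is a factor of `T` or `T'` or `e ∈ L j` with `j ∈ C`, `core j <:+: Z`, so
`loc2` gives `e <:+: w`.  If `e <:+: w`, `|e| = r + 1`: by `loc1` `e` is a factor of `T` or `T'`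
(`Inside`) or `e ∈ L j` with `core j <:+: Z`, so `j ∉ E` by `Link`, so `e ∈ F` by `IsBad`. -/
theorem bwd {X : Set (Pt n)} (D : Dat X) {r ρ R R' : ℕ} {u v : List (Fin n)}
    {F : List (List (Fin n))} (hg : D.Good r ρ) (h : D.Long r ρ R R' u v F) :
    ∃ w ∈ Lang X, Atom r u v F w := by
  obtain ⟨l, i, E, C, a, h1, b, h2, p, h3, a', h4, b', h5, q, h6, hlg, hrg, hbad, hE, hE', hin,
    hin', hcov, m', hbig, hno, hyes⟩ := h
  have hwl : (D.win l a (b + D.β)).length = a + (b + D.β) := by
    unfold Dat.win; rw [word_length]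
  have hwr : (D.win i (a' + D.β) b').length = (a' + D.β) + b' := by
    unfold Dat.win; rw [word_length]
  have hTl : (D.TL l a b p).length = a + (b + D.β) - p := by
    unfold Dat.TL; rw [List.length_drop, hwl]
  have hTr : (D.TR i a' b' q).length = q := by
    unfold Dat.TR; rw [List.length_take, hwr]
    have := hrg.2.2.1
    omega
  have hK : D.K r = r + 1 + D.d := rfl
  have hlg2 := hlg.2.1
  have hrg2 := hrg.2.1
  refine ⟨D.TL l a b p ++ m' ++ D.TR i a' b' q, ?_, ?_, ?_, ?_, ?_⟩
  · refine Lang_infix hbig ⟨(D.win l a (b + D.β)).take p, (D.win i (a' + D.β) b').drop q, ?_⟩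
    unfold Dat.TL Dat.TR
    calc (D.win l a (b + D.β)).take p ++ ((D.win l a (b + D.β)).drop p ++ m' ++
          (D.win i (a' + D.β) b').take q) ++ (D.win i (a' + D.β) b').drop q
        = ((D.win l a (b + D.β)).take p ++ (D.win l a (b + D.β)).drop p) ++ m' ++
          ((D.win i (a' + D.β) b').take q ++ (D.win i (a' + D.β) b').drop q) := by
          simp only [List.append_assoc]
      _ = _ := by rw [List.take_append_drop, List.take_append_drop]
  · simp only [List.length_append, hTl, hTr]
    omega
  · rw [List.append_assoc, List.take_append_of_le_length (by rw [hTl]; omega)]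
    exact hlg.1
  · have e1 : (D.TL l a b p ++ m' ++ D.TR i a' b' q).length - r =
        (D.TL l a b p ++ m').length + (q - r) := by
      simp only [List.length_append, hTr]; omega
    rw [e1, List.drop_append]
    simp only [Nat.add_sub_cancel_left]
    rw [List.drop_eq_nil_of_le (by omega), List.nil_append]
    exact hrg.1
  · intro e
    constructor
    · intro he
      obtain ⟨hel, h⟩ := hcov e he
      refine ⟨hel, ?_⟩
      rcases h with h | h | ⟨j, hj, hej⟩
      · refine h.trans ?_
        rw [List.append_assoc]; exact (List.prefix_append _ _).isInfix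
      · exact h.trans (List.suffix_append _ _).isInfix
      · exact loc2 D hg hlg hrg m' hbig j (hyes j hj) e hel hej
    · rintro ⟨hel, hew⟩
      rcases loc1 D hg hlg hrg m' hbig e hel hew with h | h | ⟨j, hj, hz⟩
      · exact hin e hel h
      · exact hin' e hel h
      · by_contra hne
        refine hno j ((hbad j).2 fun hall => hne (hall e hel hj)) hz

end Q67.QM
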