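import Pool.Agent.Q67.QM.Defs
import Pool.Agent.Helper806.RD.CP

set_option autoImplicit false

namespace Q67.QM

open Pool.Agent.Helper806

variable {n : ℕ}

/-- JOB CB (file CB.lean): basic computability. -/
theorem mem_words {k : ℕ} {w : List (Fin n)} : w ∈ words n k ↔ w.length = k := by
  induction k generalizing w with
  | zero => simp [words]
  | succ k ih =>
    rw [words, List.mem_flatMap]
    constructor
    · rintro ⟨v, hv, hw⟩
      rw [List.mem_map] at hw
      obtain ⟨a, -, rfl⟩ := hw
      rw [List.length_cons, ih.1 hv]
    · intro hw
      cases w with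
      | nil => simp at hw
      | cons a v =>
        refine ⟨v, ih.2 (by simpa using hw), ?_⟩
        rw [List.mem_map]
        exact ⟨a, List.mem_finRange a, rfl⟩

theorem words_computable : Computable (words n) := by
  have h : Primrec (words n) := by
    refine (Primrec.nat_rec₁ (f := fun _ (l : List (List (Fin n))) =>
      l.flatMap fun w => (List.finRange n).map fun a => a :: w) [[]] ?_).of_eq fun k => ?_
    · refine Primrec.list_flatMap Primrec.snd ?_
      refine Primrec.list_map (Primrec.const (List.finRange n)) ?_
      exact Primrec.list_cons.comp Primrec.snd (Primrec.snd.comp Primrec.fst)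
    · induction k with
      | zero => rfl
      | succ k ih =>
        rw [words, ← ih]
  exact h.to_comp

theorem take_computable : Computable fun p : ℕ × List (Fin n) => p.2.take p.1 :=
  (Primrec.list_take (α := Fin n)).to_comp

theorem drop_computable : Computable fun p : ℕ × List (Fin n) => p.2.drop p.1 :=
  (Primrec.list_drop (α := Fin n)).to_comp

theorem cp_infix : ComputablePred fun p : List (Fin n) × List (Fin n) => p.1 <:+: p.2 := by
  have h : ComputablePred fun p : List (Fin n) × List (Fin n) =>
      ∃ i, i < p.2.length + 1 ∧ (p.2.drop i).take p.1.length = p.1 := by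
    refine RE.cp_ex_lt (p := fun (p : List (Fin n) × List (Fin n)) i =>
      (p.2.drop i).take p.1.length = p.1) ?_ ?_
    · refine RE.cp_eq ?_ ?_
      · have h1 : Computable fun x : (List (Fin n) × List (Fin n)) × ℕ => x.1.2.drop x.2 :=
          drop_computable.comp (Computable.pair Computable.snd
            (Computable.snd.comp Computable.fst))
        exact take_computable.comp (Computable.pair (Computable.list_length.comp
          (Computable.fst.comp Computable.fst)) h1)
      · exact Computable.fst.comp Computable.fst
    · exact Computable.succ.comp (Computable.list_length.comp Computable.snd)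
  refine h.of_eq fun p => ?_
  constructor
  · rintro ⟨i, -, hi⟩
    rw [← hi]
    exact ((List.take_prefix _ _).isInfix).trans (List.drop_suffix _ _).isInfix
  · rintro ⟨s, t, hst⟩
    refine ⟨s.length, ?_, ?_⟩
    · have := congrArg List.length hst
      simp only [List.length_append] at this
      omega
    · rw [← hst, List.append_assoc, List.drop_left, List.take_left]

namespace CBAux

theorem cp_all_list {α ι : Type*} [Primcodable α] {P : ι → α → Prop}
    (h : ∀ j, ComputablePred (P j)) (l : List ι) : ComputablePred fun a => ∀ j ∈ l, P j a := by
  induction l with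
  | nil => exact (RE.cp_const True).of_eq fun a => by simp
  | cons i l ih => exact (RE.cp_and (h i) ih).of_eq fun a => by simp

theorem cp_ex_list {α ι : Type*} [Primcodable α] {P : ι → α → Prop}
    (h : ∀ j, ComputablePred (P j)) (l : List ι) : ComputablePred fun a => ∃ j ∈ l, P j a := by
  induction l with
  | nil => exact (RE.cp_const False).of_eq fun a => by simp
  | cons i l ih => exact (RE.cp_or (h i) ih).of_eq fun a => by simp

theorem re_all_list {α ι : Type*} [Primcodable α] {P : ι → α → Prop}
    (h : ∀ j, REPred (P j)) (l : List ι) : REPred fun a => ∀ j ∈ l, P j a := by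
  induction l with
  | nil => exact (RE.const True).of_eq fun a => by simp
  | cons i l ih => exact (RE.and (h i) ih).of_eq fun a => by simp

theorem re_ex_list {α ι : Type*} [Primcodable α] {P : ι → α → Prop}
    (h : ∀ j, REPred (P j)) (l : List ι) : REPred fun a => ∃ j ∈ l, P j a := by
  induction l with
  | nil => exact (RE.const False).of_eq fun a => by simp
  | cons i l ih => exact (RE.or (h i) ih).of_eq fun a => by simp

end CBAux

theorem cp_all_fin {α : Type*} [Primcodable α] {m : ℕ} {P : Fin m → α → Prop}
    (h : ∀ j, ComputablePred (P j)) : ComputablePred fun a => ∀ j, P j a :=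
  (CBAux.cp_all_list h (List.finRange m)).of_eq fun a => by simp

theorem cp_ex_fin {α : Type*} [Primcodable α] {m : ℕ} {P : Fin m → α → Prop}
    (h : ∀ j, ComputablePred (P j)) : ComputablePred fun a => ∃ j, P j a :=
  (CBAux.cp_ex_list h (List.finRange m)).of_eq fun a => by simp

theorem cp_ex_finset {α : Type*} [Primcodable α] {m : ℕ} {P : Finset (Fin m) → α → Prop}
    (h : ∀ j, ComputablePred (P j)) : ComputablePred fun a => ∃ j, P j a :=
  (CBAux.cp_ex_list h (Finset.univ : Finset (Finset (Fin m))).toList).of_eq fun a => by simp

theorem re_all_fin {α : Type*} [Primcodable α] {m : ℕ} {P : Fin m → α → Prop}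
    (h : ∀ j, REPred (P j)) : REPred fun a => ∀ j, P j a :=
  (CBAux.re_all_list h (List.finRange m)).of_eq fun a => by simp

theorem re_ex_fin {α : Type*} [Primcodable α] {m : ℕ} {P : Fin m → α → Prop}
    (h : ∀ j, REPred (P j)) : REPred fun a => ∃ j, P j a :=
  (CBAux.re_ex_list h (List.finRange m)).of_eq fun a => by simp

end Q67.QM
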