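import Pool.Agent.Q67.QM.CB
import Pool.Agent.Q67.QM.CG
import Pool.Agent.Helper806.RD.CP

set_option autoImplicit false

namespace Q67.QM

open Pool.Agent.Helper806

variable {n : ℕ}

namespace CLRAux

variable {α : Type*} [Primcodable α]

theorem cwin {X : Set (Pt n)} (D : Dat X)
    (hw : ∀ j, Computable fun p : ℕ × ℕ => D.win j p.1 p.2) (l : Fin D.m) {f g : α → ℕ}
    (hf : Computable f) (hg : Computable g) : Computable fun a => D.win l (f a) (g a) :=
  (hw l).comp (hf.pair hg)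

theorem cTL {X : Set (Pt n)} (D : Dat X)
    (hw : ∀ j, Computable fun p : ℕ × ℕ => D.win j p.1 p.2) (l : Fin D.m) {f g h : α → ℕ}
    (hf : Computable f) (hg : Computable g) (hh : Computable h) :
    Computable fun a => D.TL l (f a) (g a) (h a) := by
  have h1 : Computable fun a => D.win l (f a) (g a + D.β) := cwin D hw l hf (by fun_prop)
  unfold Dat.TL
  fun_prop

theorem cTR {X : Set (Pt n)} (D : Dat X)
    (hw : ∀ j, Computable fun p : ℕ × ℕ => D.win j p.1 p.2) (l : Fin D.m) {f g h : α → ℕ}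
    (hf : Computable f) (hg : Computable g) (hh : Computable h) :
    Computable fun a => D.TR l (f a) (g a) (h a) := by
  have h1 : Computable fun a => D.win l (f a + D.β) (g a) := cwin D hw l (by fun_prop) hg
  unfold Dat.TR
  fun_prop

theorem csat {X : Set (Pt n)} (D : Dat X)
    (hL : ∀ j, ComputablePred fun w : List (Fin n) => w ∈ D.L j) (J : Finset (Fin D.m))
    {f : α → ℕ} {g : α → List (Fin n)} (hf : Computable f) (hg : Computable g) :
    ComputablePred fun a => ∀ j ∈ J, D.Sat (f a) j (g a) := by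
  refine cp_all_fin fun j => ?_
  refine RE.cp_imp (RE.cp_const _) ?_
  exact RE.cp_comp (p := fun p : ℕ × List (Fin n) => D.Sat p.1 j p.2)
    (f := fun a => (f a, g a)) (sat_computable D hL j) (by fun_prop)

end CLRAux

open CLRAux

/-- JOB CLR (file CLR.lean; imports CB, CG). -/
theorem LG_computable {X : Set (Pt n)} (D : Dat X)
    (hL : ∀ j, ComputablePred fun w : List (Fin n) => w ∈ D.L j)
    (hw : ∀ j, Computable fun p : ℕ × ℕ => D.win j p.1 p.2) (l : Fin D.m) :
    ComputablePred fun s : (ℕ × ℕ × List (Fin n)) × ℕ × ℕ × ℕ =>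
      D.LG s.1.1 s.1.2.1 s.1.2.2 l s.2.1 s.2.2.1 s.2.2.2 := by
  have h1 : Computable fun s : (ℕ × ℕ × List (Fin n)) × ℕ × ℕ × ℕ =>
      D.TL l s.2.1 s.2.2.1 s.2.2.2 := cTL D hw l (by fun_prop) (by fun_prop) (by fun_prop)
  unfold Dat.LG
  refine RE.cp_and ?_ (RE.cp_and ?_ (RE.cp_and ?_ ?_))
  · exact RE.cp_eq (by fun_prop) (by fun_prop)
  · exact RE.cp_le (by fun_prop) (by fun_prop)
  · exact RE.cp_le (by fun_prop) (by fun_prop)
  · exact csat D hL (D.Jr l) (by fun_prop) (by fun_prop)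

theorem RG_computable {X : Set (Pt n)} (D : Dat X)
    (hL : ∀ j, ComputablePred fun w : List (Fin n) => w ∈ D.L j)
    (hw : ∀ j, Computable fun p : ℕ × ℕ => D.win j p.1 p.2) (i : Fin D.m) :
    ComputablePred fun s : (ℕ × ℕ × List (Fin n)) × ℕ × ℕ × ℕ =>
      D.RG s.1.1 s.1.2.1 s.1.2.2 i s.2.1 s.2.2.1 s.2.2.2 := by
  have h1 : Computable fun s : (ℕ × ℕ × List (Fin n)) × ℕ × ℕ × ℕ =>
      D.TR i s.2.1 s.2.2.1 s.2.2.2 := cTR D hw i (by fun_prop) (by fun_prop) (by fun_prop)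
  unfold Dat.RG
  refine RE.cp_and ?_ (RE.cp_and ?_ (RE.cp_and ?_ (RE.cp_and ?_ ?_)))
  · exact RE.cp_eq (by fun_prop) (by fun_prop)
  · exact RE.cp_le (by fun_prop) (by fun_prop)
  · exact RE.cp_le (by fun_prop) (by fun_prop)
  · exact RE.cp_le (by fun_prop) (by fun_prop)
  · exact csat D hL (D.Jl i) (by fun_prop) (by fun_prop)

end Q67.QM
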