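import Pool.Agent.Q67.QM.CB
import Pool.Agent.Q67.QM.CLR
import Pool.Agent.Helper806.RD.CP

set_option autoImplicit false

namespace Q67.QM

open Pool.Agent.Helper806

variable {n : ℕ}

namespace CCAux

theorem cp_ex_le {α : Type*} [Primcodable α] {p : α → ℕ → Prop}
    (hp : ComputablePred fun x : α × ℕ => p x.1 x.2)
    {f : α → ℕ} (hf : Computable f) : ComputablePred fun a => ∃ i, i ≤ f a ∧ p a i := by
  have h := RE.cp_ex_lt hp (f := fun a => f a + 1) (by fun_prop)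
  refine h.of_eq fun a => ?_
  simp only [Nat.lt_succ_iff]

end CCAux

open CCAux CLRAux CGAux

/-- JOB CC (file CC.lean; imports CB, CLR). -/
theorem LComp_computable {X : Set (Pt n)} (D : Dat X)
    (hB : ComputablePred fun w : List (Fin n) => w ∈ Lang X)
    (hL : ∀ j, ComputablePred fun w : List (Fin n) => w ∈ D.L j)
    (hw : ∀ j, Computable fun p : ℕ × ℕ => D.win j p.1 p.2) :
    ComputablePred fun s : (ℕ × ℕ × List (Fin n)) × ℕ =>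
      D.LComp s.1.1 s.1.2.1 s.1.2.2 s.2 := by
  have h : ComputablePred fun s : (ℕ × ℕ × List (Fin n)) × ℕ =>
      ∀ W ∈ words n (s.2 + s.1.1 + s.2), W ∈ Lang X → (W.drop s.2).take s.1.1 = s.1.2.2 →
        ∃ l : Fin D.m, ∃ a, a ≤ s.2 ∧ ∃ b, b ≤ s.2 ∧ ∃ p, p ≤ s.2 ∧
          (D.LG s.1.1 s.1.2.1 s.1.2.2 l a b p ∧ a + (b + D.β) ≤ p + s.1.1 + s.2 ∧
          (W.drop (s.2 - p)).take (a + (b + D.β)) = D.win l a (b + D.β)) := by
    refine RE.cp_all_mem (p := fun (s : (ℕ × ℕ × List (Fin n)) × ℕ) (W : List (Fin n)) =>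
      W ∈ Lang X → (W.drop s.2).take s.1.1 = s.1.2.2 →
        ∃ l : Fin D.m, ∃ a, a ≤ s.2 ∧ ∃ b, b ≤ s.2 ∧ ∃ p, p ≤ s.2 ∧
          (D.LG s.1.1 s.1.2.1 s.1.2.2 l a b p ∧ a + (b + D.β) ≤ p + s.1.1 + s.2 ∧
          (W.drop (s.2 - p)).take (a + (b + D.β)) = D.win l a (b + D.β))) ?_ (by fun_prop)
    refine RE.cp_imp (RE.cp_comp hB (by fun_prop)) (RE.cp_imp ?_ ?_)
    · exact RE.cp_eq (by fun_prop) (by fun_prop)
    · refine cp_ex_fin fun l => ?_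
      refine cp_ex_le (p := fun (x : ((ℕ × ℕ × List (Fin n)) × ℕ) × List (Fin n)) a =>
        ∃ b, b ≤ x.1.2 ∧ ∃ p, p ≤ x.1.2 ∧
          (D.LG x.1.1.1 x.1.1.2.1 x.1.1.2.2 l a b p ∧ a + (b + D.β) ≤ p + x.1.1.1 + x.1.2 ∧
          (x.2.drop (x.1.2 - p)).take (a + (b + D.β)) = D.win l a (b + D.β))) ?_ (by fun_prop)
      refine cp_ex_le (p := fun (x : (((ℕ × ℕ × List (Fin n)) × ℕ) × List (Fin n)) × ℕ) b =>
        ∃ p, p ≤ x.1.1.2 ∧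
          (D.LG x.1.1.1.1 x.1.1.1.2.1 x.1.1.1.2.2 l x.2 b p ∧
            x.2 + (b + D.β) ≤ p + x.1.1.1.1 + x.1.1.2 ∧
          (x.1.2.drop (x.1.1.2 - p)).take (x.2 + (b + D.β)) = D.win l x.2 (b + D.β))) ?_
          (by fun_prop)
      refine cp_ex_le (p := fun (x : ((((ℕ × ℕ × List (Fin n)) × ℕ) × List (Fin n)) × ℕ) × ℕ) p =>
          (D.LG x.1.1.1.1.1 x.1.1.1.1.2.1 x.1.1.1.1.2.2 l x.1.2 x.2 p ∧
            x.1.2 + (x.2 + D.β) ≤ p + x.1.1.1.1.1 + x.1.1.1.2 ∧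
          (x.1.1.2.drop (x.1.1.1.2 - p)).take (x.1.2 + (x.2 + D.β)) =
            D.win l x.1.2 (x.2 + D.β))) ?_ (by fun_prop)
      refine RE.cp_and ?_ (RE.cp_and ?_ ?_)
      · exact RE.cp_comp (p := fun s : (ℕ × ℕ × List (Fin n)) × ℕ × ℕ × ℕ =>
          D.LG s.1.1 s.1.2.1 s.1.2.2 l s.2.1 s.2.2.1 s.2.2.2)
          (f := fun x : (((((ℕ × ℕ × List (Fin n)) × ℕ) × List (Fin n)) × ℕ) × ℕ) × ℕ =>
            ((x.1.1.1.1.1.1, x.1.1.1.1.1.2.1, x.1.1.1.1.1.2.2), x.1.1.2, x.1.2, x.2))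
          (LG_computable D hL hw l) (by fun_prop)
      · exact RE.cp_le (by fun_prop) (by fun_prop)
      · exact RE.cp_eq (by fun_prop) (cwin D hw l (by fun_prop) (by fun_prop))
  refine h.of_eq fun s => ?_
  constructor
  · intro h W hW hl hu
    obtain ⟨l, a, ha, b, hb, p, hp, h1, h2, h3⟩ := h W (mem_words.2 hl) hW hu
    exact ⟨l, a, b, p, ha, hb, hp, h1, h2, h3⟩
  · intro h W hl hW hu
    obtain ⟨l, a, b, p, ha, hb, hp, h1, h2, h3⟩ := h W hW (mem_words.1 hl) hu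
    exact ⟨l, a, ha, b, hb, p, hp, h1, h2, h3⟩

theorem RComp_computable {X : Set (Pt n)} (D : Dat X)
    (hB : ComputablePred fun w : List (Fin n) => w ∈ Lang X)
    (hL : ∀ j, ComputablePred fun w : List (Fin n) => w ∈ D.L j)
    (hw : ∀ j, Computable fun p : ℕ × ℕ => D.win j p.1 p.2) :
    ComputablePred fun s : (ℕ × ℕ × List (Fin n)) × ℕ =>
      D.RComp s.1.1 s.1.2.1 s.1.2.2 s.2 := by
  have h : ComputablePred fun s : (ℕ × ℕ × List (Fin n)) × ℕ =>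
      ∀ W ∈ words n (s.2 + s.1.1 + s.2), W ∈ Lang X → (W.drop s.2).take s.1.1 = s.1.2.2 →
        ∃ i : Fin D.m, ∃ a, a ≤ s.2 ∧ ∃ b, b ≤ s.2 ∧ ∃ q, q ≤ s.2 + s.1.1 ∧
          (D.RG s.1.1 s.1.2.1 s.1.2.2 i a b q ∧ (a + D.β) + b ≤ q + s.2 ∧
          (W.drop (s.2 + s.1.1 - q)).take ((a + D.β) + b) = D.win i (a + D.β) b) := by
    refine RE.cp_all_mem (p := fun (s : (ℕ × ℕ × List (Fin n)) × ℕ) (W : List (Fin n)) =>
      W ∈ Lang X → (W.drop s.2).take s.1.1 = s.1.2.2 →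
        ∃ i : Fin D.m, ∃ a, a ≤ s.2 ∧ ∃ b, b ≤ s.2 ∧ ∃ q, q ≤ s.2 + s.1.1 ∧
          (D.RG s.1.1 s.1.2.1 s.1.2.2 i a b q ∧ (a + D.β) + b ≤ q + s.2 ∧
          (W.drop (s.2 + s.1.1 - q)).take ((a + D.β) + b) = D.win i (a + D.β) b)) ?_
          (by fun_prop)
    refine RE.cp_imp (RE.cp_comp hB (by fun_prop)) (RE.cp_imp ?_ ?_)
    · exact RE.cp_eq (by fun_prop) (by fun_prop)
    · refine cp_ex_fin fun i => ?_
      refine cp_ex_le (p := fun (x : ((ℕ × ℕ × List (Fin n)) × ℕ) × List (Fin n)) a =>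
        ∃ b, b ≤ x.1.2 ∧ ∃ q, q ≤ x.1.2 + x.1.1.1 ∧
          (D.RG x.1.1.1 x.1.1.2.1 x.1.1.2.2 i a b q ∧ (a + D.β) + b ≤ q + x.1.2 ∧
          (x.2.drop (x.1.2 + x.1.1.1 - q)).take ((a + D.β) + b) = D.win i (a + D.β) b)) ?_
          (by fun_prop)
      refine cp_ex_le (p := fun (x : (((ℕ × ℕ × List (Fin n)) × ℕ) × List (Fin n)) × ℕ) b =>
        ∃ q, q ≤ x.1.1.2 + x.1.1.1.1 ∧
          (D.RG x.1.1.1.1 x.1.1.1.2.1 x.1.1.1.2.2 i x.2 b q ∧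
            (x.2 + D.β) + b ≤ q + x.1.1.2 ∧
          (x.1.2.drop (x.1.1.2 + x.1.1.1.1 - q)).take ((x.2 + D.β) + b) =
            D.win i (x.2 + D.β) b)) ?_
          (by fun_prop)
      refine cp_ex_le (p := fun (x : ((((ℕ × ℕ × List (Fin n)) × ℕ) × List (Fin n)) × ℕ) × ℕ) q =>
          (D.RG x.1.1.1.1.1 x.1.1.1.1.2.1 x.1.1.1.1.2.2 i x.1.2 x.2 q ∧
            (x.1.2 + D.β) + x.2 ≤ q + x.1.1.1.2 ∧
          (x.1.1.2.drop (x.1.1.1.2 + x.1.1.1.1.1 - q)).take ((x.1.2 + D.β) + x.2) =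
            D.win i (x.1.2 + D.β) x.2)) ?_ (by fun_prop)
      refine RE.cp_and ?_ (RE.cp_and ?_ ?_)
      · exact RE.cp_comp (p := fun s : (ℕ × ℕ × List (Fin n)) × ℕ × ℕ × ℕ =>
          D.RG s.1.1 s.1.2.1 s.1.2.2 i s.2.1 s.2.2.1 s.2.2.2)
          (f := fun x : (((((ℕ × ℕ × List (Fin n)) × ℕ) × List (Fin n)) × ℕ) × ℕ) × ℕ =>
            ((x.1.1.1.1.1.1, x.1.1.1.1.1.2.1, x.1.1.1.1.1.2.2), x.1.1.2, x.1.2, x.2))
          (RG_computable D hL hw i) (by fun_prop)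
      · exact RE.cp_le (by fun_prop) (by fun_prop)
      · exact RE.cp_eq (by fun_prop) (cwin D hw i (by fun_prop) (by fun_prop))
  refine h.of_eq fun s => ?_
  constructor
  · intro h W hW hl hu
    obtain ⟨l, a, ha, b, hb, p, hp, h1, h2, h3⟩ := h W (mem_words.2 hl) hW hu
    exact ⟨l, a, b, p, ha, hb, hp, h1, h2, h3⟩
  · intro h W hl hW hu
    obtain ⟨l, a, b, p, ha, hb, hp, h1, h2, h3⟩ := h W hW (mem_words.1 hl) hu
    exact ⟨l, a, ha, b, hb, p, hp, h1, h2, h3⟩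

end Q67.QM
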