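import Pool.Agent.Q67.QM.Defs

set_option autoImplicit false

namespace Q67.QM

variable {n : ℕ}

/-- JOB TOP1 (file Unif.lean). `X` is compact (closed subset of a product of finite discrete
spaces); the sets `{z | G z R}` are open by `loc` (they contain the cylinder of radius `R + c` of
each of their points) and increasing by `mono`; they cover `X`; take a finite subcover. -/
theorem unif {X : Set (Pt n)} (hX : IsClosed X) (c : ℕ) (G : Pt n → ℕ → Prop)
    (mono : ∀ z R R', R ≤ R' → G z R → G z R')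
    (loc : ∀ (R : ℕ) (z z' : Pt n), (∀ i : ℤ, -((R : ℤ) + c) ≤ i → i ≤ (R : ℤ) + c → z i = z' i) →
      G z R → G z' R)
    (h : ∀ z ∈ X, ∃ R, G z R) : ∃ R, ∀ z ∈ X, G z R := by
  have hc : IsCompact X := hX.isCompact
  have hopen : ∀ R, IsOpen {z | G z R} := by
    intro R
    rw [isOpen_iff_mem_nhds]
    intro z hz
    have h1 : IsOpen (⋂ i ∈ Finset.Icc (-((R : ℤ) + c)) ((R : ℤ) + c), {z' : Pt n | z i = z' i}) := by
      refine isOpen_biInter_finset fun i _ => ?_
      have h2 : {z' : Pt n | z i = z' i} = (fun z' : Pt n => z' i) ⁻¹' {z i} := by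
        ext z'
        exact ⟨fun h => h.symm, fun h => Eq.symm h⟩
      rw [h2]
      exact (isOpen_discrete _).preimage (continuous_apply i)
    refine Filter.mem_of_superset (h1.mem_nhds ?_) ?_
    · simp
    · intro z' hz'
      refine loc R z z' (fun i h2 h3 => ?_) hz
      have h4 := Set.mem_iInter₂.1 hz' i (Finset.mem_Icc.2 ⟨h2, h3⟩)
      exact h4
  obtain ⟨t, ht⟩ := hc.elim_finite_subcover (fun R => {z | G z R}) hopen
    (fun z hz => Set.mem_iUnion.2 (h z hz))
  refine ⟨t.sup id, fun z hz => ?_⟩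
  obtain ⟨R, hR, hG⟩ := Set.mem_iUnion₂.1 (ht hz)
  exact mono z R _ (Finset.le_sup (f := id) hR) hG

end Q67.QM
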