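import Pool.Agent.Q67.QM.W
import Pool.Agent.Q67.QM.Unif
import Pool.Agent.Q67.QM.CB
import Pool.Agent.Q67.QM.CG
import Pool.Agent.Helper806.RD.CP

set_option autoImplicit false

namespace Q67.QM

open Pool.Agent.Helper806

variable {n : ℕ}

namespace CWinAux

theorem word_infix_word (z : Pt n) (s : ℤ) (k : ℕ) (i : ℤ) (T : ℕ) (h1 : i ≤ s)
    (h2 : s + k ≤ i + T) : word z s k <:+: word z i T := by
  rw [infix_word]
  refine ⟨(s - i).toNat, ?_, ?_⟩
  · rw [word_length]
    omega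
  · rw [word_length]
    congr 1
    omega

theorem bad_avoid {X : Set (Pt n)} (D : Dat X) {i j : Fin D.m} (hi : ¬ D.L i ⊆ D.L j)
    {W : List (Fin n)} (hW : W ∈ D.L j) : ¬ D.core i <:+: W := by
  intro h
  exact hi (D.core_sub j i (PLang_infix hW h))

theorem exists_core {X : Set (Pt n)} (D : Dat X) {j : Fin D.m} {z : Pt n} (hz : z ∈ X)
    (h : ¬ PLang z ⊆ D.L j) : ∃ i, ¬ D.L i ⊆ D.L j ∧ ∃ s : ℤ, word z s D.d = D.core i := by
  obtain ⟨i, s, rfl⟩ := (D.mem_iff z).1 hz
  rw [PLang_tr] at h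
  refine ⟨i, h, -s, ?_⟩
  rw [word_tr, neg_add_cancel]
  rfl

theorem exists_center {X : Set (Pt n)} (D : Dat X) {W : List (Fin n)} (hW : W ∈ Lang X)
    (N c : ℕ) (hlen : W.length = N + c + N) :
    ∃ z ∈ X, word z (-(N : ℤ)) (N + c + N) = W := by
  obtain ⟨z, hz, i, hi⟩ := hW
  refine ⟨tr (i + N) z, tr_mem D hz _, ?_⟩
  rw [word_tr, ← hlen, neg_add_eq_sub, add_sub_cancel_right]
  exact hi

theorem x_mem {X : Set (Pt n)} (D : Dat X) (j : Fin D.m) : D.x j ∈ X := by
  refine (D.mem_iff _).2 ⟨j, 0, ?_⟩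
  funext i
  simp [tr]

theorem word_congr {z z' : Pt n} {i : ℤ} {k : ℕ} {A B : ℤ}
    (h : ∀ t : ℤ, A ≤ t → t ≤ B → z t = z' t) (h1 : A ≤ i) (h2 : i + k ≤ B + 1) :
    word z i k = word z' i k := by
  rw [word_eq_iff]
  intro t ht
  exact h _ (by omega) (by omega)

end CWinAux

open CWinAux CGAux

theorem CWinAux.win_graph {X : Set (Pt n)} (hX : IsClosed X) (D : Dat X) (j : Fin D.m) (a b : ℕ)
    (V : List (Fin n)) :
    D.win j a b = V ↔ ∃ N : ℕ, a ≤ N ∧ b ≤ N + D.d ∧ ∀ W ∈ words n (N + D.d + N), W ∈ Lang X →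
      (W.drop N).take D.d = D.core j → (∀ i, ¬ D.L i ⊆ D.L j → ¬ D.core i <:+: W) →
      (W.drop (N - a)).take (a + b) = V := by
  constructor
  · intro hV
    have hun : ∃ R : ℕ, ∀ z ∈ X, word z 0 D.d = D.core j →
      ((∃ i, ¬ D.L i ⊆ D.L j ∧ D.core i <:+: word z (-(R : ℤ)) (R + D.d + R)) ∨
        (a ≤ R ∧ b ≤ R ∧ word z (-(a : ℤ)) (a + b) = D.win j a b)) := by
      refine unif hX D.d (fun z R => word z 0 D.d = D.core j →
        ((∃ i, ¬ D.L i ⊆ D.L j ∧ D.core i <:+: word z (-(R : ℤ)) (R + D.d + R)) ∨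
          (a ≤ R ∧ b ≤ R ∧ word z (-(a : ℤ)) (a + b) = D.win j a b))) ?_ ?_ ?_
      · intro z R R' hRR' hG hc
        rcases hG hc with ⟨i, hi, hcz⟩ | ⟨h1, h2, h3⟩
        · exact Or.inl ⟨i, hi, hcz.trans (word_infix_word _ _ _ _ _ (by omega) (by omega))⟩
        · exact Or.inr ⟨by omega, by omega, h3⟩
      · intro R z z' hzz hG hc
        rw [← word_congr hzz (by omega) (by omega)] at hc
        rcases hG hc with ⟨i, hi, hcz⟩ | ⟨h1, h2, h3⟩
        · refine Or.inl ⟨i, hi, ?_⟩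
          rw [← word_congr hzz (by omega) (by push_cast; omega)]
          exact hcz
        · refine Or.inr ⟨h1, h2, ?_⟩
          rw [← word_congr hzz (by omega) (by push_cast; omega)]
          exact h3
      · intro z hz
        by_cases hc : word z 0 D.d = D.core j
        · by_cases hP : PLang z ⊆ D.L j
          · have hzx := D.iso j z hz hP hc
            refine ⟨max a b, fun _ => Or.inr ⟨by omega, by omega, ?_⟩⟩
            rw [hzx]
            rfl
          · obtain ⟨i, hi, s, hs⟩ := exists_core D hz hP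
            refine ⟨s.natAbs, fun _ => Or.inl ⟨i, hi, ?_⟩⟩
            rw [← hs]
            exact word_infix_word _ _ _ _ _ (by omega) (by omega)
        · exact ⟨0, fun h => absurd h hc⟩
    obtain ⟨R, hR⟩ := hun
    · refine ⟨max R (max a b), by omega, by omega, ?_⟩
      intro W hWl hWX hcore havoid
      have hlen := mem_words.1 hWl
      obtain ⟨z, hz, hzW⟩ := exists_center D hWX _ _ hlen
      set N := max R (max a b) with hN
      have h1 : (W.drop N).take D.d = word z 0 D.d := by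
        rw [← hzW, word_drop_take _ _ _ _ _ (by omega), neg_add_cancel]
      rw [h1] at hcore
      rcases hR z hz hcore with ⟨i, hi, hcz⟩ | ⟨-, -, h2⟩
      · exfalso
        refine havoid i hi (hcz.trans ?_)
        rw [← hzW]
        exact word_infix_word _ _ _ _ _ (by omega) (by omega)
      · rw [← hV, ← h2, ← hzW, word_drop_take _ _ _ _ _ (by omega)]
        congr 1
        omega
  · rintro ⟨N, haN, hbN, h⟩
    have hlen := word_length (D.x j) (-(N : ℤ)) (N + D.d + N)
    have h1 := h (word (D.x j) (-(N : ℤ)) (N + D.d + N)) (mem_words.2 hlen)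
      ⟨D.x j, x_mem D j, word_mem_PLang _ _ _⟩ ?_ ?_
    · rw [word_drop_take _ _ _ _ _ (by omega)] at h1
      rw [← h1]
      unfold Dat.win
      congr 1
      omega
    · rw [word_drop_take _ _ _ _ _ (by omega), neg_add_cancel]
      rfl
    · intro i hi
      exact bad_avoid D hi (word_mem_PLang _ _ _)

/-- JOB CWIN (file CWin.lean; imports W, Unif, CB).  The graph is r.e.: `win j a b = V` iff there is
`N` with `a ≤ N`, `b ≤ N + d` such that for all `W ∈ words (N + d + N)` with `W ∈ Lang X`, with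
`(W.drop N).take d = core j` (a fixed word) and without occurrence of the `core i` with
`¬ L i ⊆ L j` (a fixed finite set of words): `(W.drop (N - a)).take (a + b) = V`.  (⇐): apply it to
`W = word (x j) (-N) (N + d + N)` (a `core i` in it is in `L j`, so `L i ⊆ L j` by `core_sub`).
(⇒): `unif` (with `c = d`) for `G z N = (word z 0 d = core j → (∃ i, ¬ L i ⊆ L j ∧ core i <:+: word z (-N)
(N + d + N)) ∨ z agrees with x j on [-a, b) )`: a `z ∈ X` with `word z 0 d = core j` is `x j` or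
(by `iso`) has `¬ PLang z ⊆ L j`, `z = tr s (x i)`, `core i` occurs in `z`.  Then
`RE.computable_of_graph`. -/
theorem win_computable {X : Set (Pt n)} (hX : IsClosed X)
    (hB : ComputablePred fun w : List (Fin n) => w ∈ Lang X) (D : Dat X) (j : Fin D.m) :
    Computable fun p : ℕ × ℕ => D.win j p.1 p.2 := by
  refine RE.computable_of_graph ?_
  have h : REPred fun x : (ℕ × ℕ) × List (Fin n) => ∃ N : ℕ, x.1.1 ≤ N ∧ x.1.2 ≤ N + D.d ∧
      ∀ W ∈ words n (N + D.d + N), W ∈ Lang X →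
      (W.drop N).take D.d = D.core j → (∀ i, ¬ D.L i ⊆ D.L j → ¬ D.core i <:+: W) →
      (W.drop (N - x.1.1)).take (x.1.1 + x.1.2) = x.2 := by
    refine RE.exN (p := fun (x : (ℕ × ℕ) × List (Fin n)) (N : ℕ) =>
      x.1.1 ≤ N ∧ x.1.2 ≤ N + D.d ∧ ∀ W ∈ words n (N + D.d + N), W ∈ Lang X →
      (W.drop N).take D.d = D.core j → (∀ i, ¬ D.L i ⊆ D.L j → ¬ D.core i <:+: W) →
      (W.drop (N - x.1.1)).take (x.1.1 + x.1.2) = x.2) ?_
    refine RE.of_comput ?_
    refine RE.cp_and (RE.cp_le (by fun_prop) (by fun_prop))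
      (RE.cp_and (RE.cp_le (by fun_prop) (by fun_prop)) ?_)
    refine RE.cp_all_mem (p := fun (x : ((ℕ × ℕ) × List (Fin n)) × ℕ) (W : List (Fin n)) =>
      W ∈ Lang X → (W.drop x.2).take D.d = D.core j →
      (∀ i, ¬ D.L i ⊆ D.L j → ¬ D.core i <:+: W) →
      (W.drop (x.2 - x.1.1.1)).take (x.1.1.1 + x.1.1.2) = x.1.2) ?_ (by fun_prop)
    refine RE.cp_imp (RE.cp_comp hB (by fun_prop)) (RE.cp_imp ?_ (RE.cp_imp ?_ ?_))
    · exact RE.cp_eq (by fun_prop) (by fun_prop)
    · refine cp_all_fin fun i => ?_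
      exact RE.cp_imp (RE.cp_const _) (RE.cp_not (cinf (by fun_prop) (by fun_prop)))
    · exact RE.cp_eq (by fun_prop) (by fun_prop)
  exact h.of_eq fun x => (win_graph hX D j x.1.1 x.1.2 x.2).symm

end Q67.QM
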