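import Pool.Agent.Q67.QM.W
import Pool.Agent.Q67.QM.Unif
import Pool.Agent.Q67.QM.CB
import Pool.Agent.Q67.QM.CG
import Pool.Agent.Q67.QM.CWin
import Pool.Agent.Helper806.RD.CP

set_option autoImplicit false

namespace Q67.QM

open Pool.Agent.Helper806 CGAux CWinAux

variable {n : ℕ}

namespace CLAux

theorem mem_iff {X : Set (Pt n)} (D : Dat X) (j : Fin D.m) (w : List (Fin n)) :
    w ∈ D.L j ↔ ∃ p : ℕ × ℕ, w <:+: D.win j p.1 p.2 := by
  constructor
  · rintro ⟨i, hi⟩
    refine ⟨(i.natAbs, i.natAbs + w.length), ?_⟩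
    have h : word (D.x j) i w.length <:+: D.win j i.natAbs (i.natAbs + w.length) :=
      word_infix_word _ _ _ _ _ (by omega) (by omega)
    rw [hi] at h
    exact h
  · rintro ⟨p, hp⟩
    exact PLang_infix (word_mem_PLang _ _ _) hp

theorem not_mem_iff {X : Set (Pt n)} (hX : IsClosed X) (D : Dat X) (j : Fin D.m)
    (w : List (Fin n)) :
    w ∉ D.L j ↔ ∃ N : ℕ, ∀ W ∈ words n (N + w.length + N), W ∈ Lang X →
      (W.drop N).take w.length = w → ∃ i, ¬ D.L i ⊆ D.L j ∧ D.core i <:+: W := by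
  constructor
  · intro hw
    have hun : ∃ N : ℕ, ∀ z ∈ X, word z 0 w.length = w → ∃ i, ¬ D.L i ⊆ D.L j ∧
        D.core i <:+: word z (-(N : ℤ)) (N + w.length + N) := by
      refine unif hX w.length (fun z N => word z 0 w.length = w → ∃ i, ¬ D.L i ⊆ D.L j ∧
        D.core i <:+: word z (-(N : ℤ)) (N + w.length + N)) ?_ ?_ ?_
      · intro z R R' hRR' hG hc
        obtain ⟨i, hi, hcz⟩ := hG hc
        exact ⟨i, hi, hcz.trans (word_infix_word _ _ _ _ _ (by omega) (by omega))⟩
      · intro R z z' hzz hG hc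
        rw [← word_congr hzz (by omega) (by omega)] at hc
        obtain ⟨i, hi, hcz⟩ := hG hc
        refine ⟨i, hi, ?_⟩
        rw [← word_congr hzz (by omega) (by push_cast; omega)]
        exact hcz
      · intro z hz
        by_cases hc : word z 0 w.length = w
        · have hP : ¬ PLang z ⊆ D.L j := fun h => hw (h ⟨0, hc⟩)
          obtain ⟨i, hi, s, hs⟩ := exists_core D hz hP
          refine ⟨s.natAbs + D.d, fun _ => ⟨i, hi, ?_⟩⟩
          rw [← hs]
          exact word_infix_word _ _ _ _ _ (by omega) (by omega)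
        · exact ⟨0, fun h => absurd h hc⟩
    obtain ⟨N, hN⟩ := hun
    refine ⟨N, ?_⟩
    intro W hWl hWX hw'
    have hlen := mem_words.1 hWl
    obtain ⟨z, hz, hzW⟩ := exists_center D hWX _ _ hlen
    have h1 : (W.drop N).take w.length = word z 0 w.length := by
      rw [← hzW, word_drop_take _ _ _ _ _ (by omega), neg_add_cancel]
    rw [h1] at hw'
    obtain ⟨i, hi, hcz⟩ := hN z hz hw'
    refine ⟨i, hi, ?_⟩
    rw [← hzW]
    exact hcz
  · rintro ⟨N, h⟩ hw
    obtain ⟨p, hp⟩ := hw
    have hlen := word_length (D.x j) (p - N) (N + w.length + N)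
    obtain ⟨i, hi, hci⟩ := h (word (D.x j) (p - N) (N + w.length + N)) (mem_words.2 hlen)
      ⟨D.x j, x_mem D j, word_mem_PLang _ _ _⟩ (by
        rw [word_drop_take _ _ _ _ _ (by omega), sub_add_cancel]
        exact hp)
    exact bad_avoid D hi (word_mem_PLang _ _ _) hci

end CLAux

open CLAux

/-- JOB CL (file CL.lean; imports W, Unif, CB, CWin).  `w ∈ L j` iff `∃ a b, w <:+: win j a b`:
r.e.  `w ∉ L j` iff there is `N` such that every `W ∈ words (N + |w| + N)` with `W ∈ Lang X` and
`(W.drop N).take |w| = w` contains a `core i` with `¬ L i ⊆ L j`: r.e.  (⇐: if `w ∈ L j` take the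
block `W` of `x j` around an occurrence of `w`: a `core i` in it is in `L j`, so `L i ⊆ L j`.  ⇒:
`unif`: `z ∈ X` with `word z 0 |w| = w` is `tr s (x i)`; `w ∈ L i`, so `¬ L i ⊆ L j`, and `core i`
occurs in `z`.) -/
theorem L_computable {X : Set (Pt n)} (hX : IsClosed X)
    (hB : ComputablePred fun w : List (Fin n) => w ∈ Lang X) (D : Dat X) (j : Fin D.m) :
    ComputablePred fun w : List (Fin n) => w ∈ D.L j := by
  refine RE.cp_of_re ?_ ?_
  · have h : REPred fun w : List (Fin n) => ∃ p : ℕ × ℕ, w <:+: D.win j p.1 p.2 := by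
      refine RE.ex (p := fun (w : List (Fin n)) (p : ℕ × ℕ) => w <:+: D.win j p.1 p.2) ?_
      exact RE.of_comput (cinf (by fun_prop)
        ((win_computable hX hB D j).comp (by fun_prop)))
    exact h.of_eq fun w => (mem_iff D j w).symm
  · have h : REPred fun w : List (Fin n) => ∃ N : ℕ, ∀ W ∈ words n (N + w.length + N),
        W ∈ Lang X → (W.drop N).take w.length = w → ∃ i, ¬ D.L i ⊆ D.L j ∧ D.core i <:+: W := by
      refine RE.exN (p := fun (w : List (Fin n)) (N : ℕ) => ∀ W ∈ words n (N + w.length + N),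
        W ∈ Lang X → (W.drop N).take w.length = w →
        ∃ i, ¬ D.L i ⊆ D.L j ∧ D.core i <:+: W) ?_
      refine RE.of_comput ?_
      refine RE.cp_all_mem (p := fun (x : List (Fin n) × ℕ) (W : List (Fin n)) =>
        W ∈ Lang X → (W.drop x.2).take x.1.length = x.1 →
        ∃ i, ¬ D.L i ⊆ D.L j ∧ D.core i <:+: W) ?_ (by fun_prop)
      refine RE.cp_imp (RE.cp_comp hB (by fun_prop)) (RE.cp_imp ?_ ?_)
      · exact RE.cp_eq (by fun_prop) (by fun_prop)
      · refine cp_ex_fin fun i => ?_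
        exact RE.cp_and (RE.cp_const _) (cinf (by fun_prop) (by fun_prop))
    exact h.of_eq fun w => (not_mem_iff hX D j w).symm

end Q67.QM
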