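import Pool.Agent.Q67.QM.CB
import Pool.Agent.Q67.QM.CG
import Pool.Agent.Q67.QM.CLR
import Pool.Agent.Helper806.RD.CP

set_option autoImplicit false

namespace Q67.QM

open Pool.Agent.Helper806

variable {n : ℕ}

namespace CLongAux

open CGAux CLRAux

theorem cp_ex_le {α : Type*} [Primcodable α] {p : α → ℕ → Prop}
    (hp : ComputablePred fun x : α × ℕ => p x.1 x.2)
    {f : α → ℕ} (hf : Computable f) : ComputablePred fun a => ∃ i, i ≤ f a ∧ p a i := by
  have h := RE.cp_ex_lt hp (f := fun a => f a + 1) (by fun_prop)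
  refine h.of_eq fun a => ?_
  simp only [Nat.lt_succ_iff]

variable {α : Type*} [Primcodable α]

theorem cIsBad {X : Set (Pt n)} (D : Dat X)
    (hL : ∀ j, ComputablePred fun w : List (Fin n) => w ∈ D.L j) (E : Finset (Fin D.m))
    {r : α → ℕ} {F : α → List (List (Fin n))} (hr : Computable r) (hF : Computable F) :
    ComputablePred fun a => D.IsBad (r a) (F a) E := by
  unfold Dat.IsBad
  refine cp_all_fin fun j => ?_
  refine RE.cp_iff (RE.cp_const _) (RE.cp_not ?_)
  have h : ComputablePred fun a => ∀ e ∈ words n (r a + 1), e ∈ D.L j → e ∈ F a := by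
    refine RE.cp_all_mem (p := fun (a : α) (e : List (Fin n)) => e ∈ D.L j → e ∈ F a) ?_
      (by fun_prop)
    exact RE.cp_imp (RE.cp_comp (hL j) (by fun_prop)) (RE.cp_mem (by fun_prop) (by fun_prop))
  refine h.of_eq fun a => ?_
  exact ⟨fun h e he => h e (mem_words.2 he), fun h e he => h e (mem_words.1 he)⟩

theorem cInside {r : α → ℕ} {F : α → List (List (Fin n))} {W : α → List (Fin n)}
    (hr : Computable r) (hF : Computable F) (hW : Computable W) :
    ComputablePred fun a => Dat.Inside (r a) (F a) (W a) := by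
  unfold Dat.Inside
  have h : ComputablePred fun a => ∀ e ∈ words n (r a + 1), e <:+: W a → e ∈ F a := by
    refine RE.cp_all_mem (p := fun (a : α) (e : List (Fin n)) => e <:+: W a → e ∈ F a) ?_
      (by fun_prop)
    exact RE.cp_imp (cinf (by fun_prop) (by fun_prop)) (RE.cp_mem (by fun_prop) (by fun_prop))
  refine h.of_eq fun a => ?_
  exact ⟨fun h e he => h e (mem_words.2 he), fun h e he => h e (mem_words.1 he)⟩

theorem cCover {X : Set (Pt n)} (D : Dat X)
    (hL : ∀ j, ComputablePred fun w : List (Fin n) => w ∈ D.L j) (C : Finset (Fin D.m))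
    {r : α → ℕ} {F : α → List (List (Fin n))} {T T' : α → List (Fin n)}
    (hr : Computable r) (hF : Computable F) (hT : Computable T) (hT' : Computable T') :
    ComputablePred fun a => D.Cover (r a) (F a) (T a) (T' a) C := by
  unfold Dat.Cover
  refine RE.cp_all_mem (p := fun (a : α) (e : List (Fin n)) =>
    e.length = r a + 1 ∧ (e <:+: T a ∨ e <:+: T' a ∨ ∃ j ∈ C, e ∈ D.L j)) ?_ hF
  refine RE.cp_and ?_ (RE.cp_or ?_ (RE.cp_or ?_ ?_))
  · exact RE.cp_eq (by fun_prop) (by fun_prop)
  · exact cinf (by fun_prop) (by fun_prop)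
  · exact cinf (by fun_prop) (by fun_prop)
  · refine cp_ex_fin fun j => ?_
    exact RE.cp_and (RE.cp_const _) (RE.cp_comp (hL j) (by fun_prop))

theorem cLG {X : Set (Pt n)} (D : Dat X)
    (hL : ∀ j, ComputablePred fun w : List (Fin n) => w ∈ D.L j)
    (hw : ∀ j, Computable fun p : ℕ × ℕ => D.win j p.1 p.2) (l : Fin D.m)
    {r ρ a b p : α → ℕ} {u : α → List (Fin n)} (hr : Computable r) (hρ : Computable ρ)
    (ha : Computable a) (hb : Computable b) (hp : Computable p) (hu : Computable u) :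
    ComputablePred fun x => D.LG (r x) (ρ x) (u x) l (a x) (b x) (p x) :=
  RE.cp_comp (p := fun s : (ℕ × ℕ × List (Fin n)) × ℕ × ℕ × ℕ =>
          D.LG s.1.1 s.1.2.1 s.1.2.2 l s.2.1 s.2.2.1 s.2.2.2)
          (f := fun x => ((r x, ρ x, u x), a x, b x, p x))
          (LG_computable D hL hw l) (by fun_prop)

theorem cRG {X : Set (Pt n)} (D : Dat X)
    (hL : ∀ j, ComputablePred fun w : List (Fin n) => w ∈ D.L j)
    (hw : ∀ j, Computable fun p : ℕ × ℕ => D.win j p.1 p.2) (l : Fin D.m)
    {r ρ a b p : α → ℕ} {u : α → List (Fin n)} (hr : Computable r) (hρ : Computable ρ)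
    (ha : Computable a) (hb : Computable b) (hp : Computable p) (hu : Computable u) :
    ComputablePred fun x => D.RG (r x) (ρ x) (u x) l (a x) (b x) (p x) :=
  RE.cp_comp (p := fun s : (ℕ × ℕ × List (Fin n)) × ℕ × ℕ × ℕ =>
          D.RG s.1.1 s.1.2.1 s.1.2.2 l s.2.1 s.2.2.1 s.2.2.2)
          (f := fun x => ((r x, ρ x, u x), a x, b x, p x))
          (RG_computable D hL hw l) (by fun_prop)

end CLongAux

open CGAux CLRAux CLongAux

/-- JOB CLONG (file CLong.lean; imports CB, CG, CLR).  `IsBad`, `Inside`, `Cover` are bounded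
quantifiers over `words n (r + 1)` or over the list `F`; for `E` not disjoint from `Jr l` or `Jl i`
the formula is false (fixed finite data: case distinction outside of the computation); else `hK`
decides `Link`. -/
theorem long_computable {X : Set (Pt n)} (D : Dat X)
    (hL : ∀ j, ComputablePred fun w : List (Fin n) => w ∈ D.L j)
    (hw : ∀ j, Computable fun p : ℕ × ℕ => D.win j p.1 p.2)
    (hK : ∀ l i E C, Disjoint E (D.Jr l) → Disjoint E (D.Jl i) →
      ComputablePred fun p : ℕ × ℕ × ℕ × ℕ =>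
        D.Link l i E C p.1 (p.2.1 + D.β) (p.2.2.1 + D.β) p.2.2.2) :
    ComputablePred fun s : (ℕ × ℕ × ℕ × ℕ) × List (Fin n) × List (Fin n) × List (List (Fin n)) =>
      D.Long s.1.1 s.1.2.1 s.1.2.2.1 s.1.2.2.2 s.2.1 s.2.2.1 s.2.2.2 := by
  unfold Dat.Long
  refine cp_ex_fin fun l => cp_ex_fin fun i => cp_ex_finset fun E => cp_ex_finset fun C => ?_
  by_cases hd : Disjoint E (D.Jr l) ∧ Disjoint E (D.Jl i)
  swap
  · refine (RE.cp_const False).of_eq fun s => ?_
    constructor
    · exact False.elim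
    · rintro ⟨a, -, b, -, p, -, a', -, b', -, q, -, -, -, -, h1, h2, -⟩
      exact hd ⟨h1, h2⟩
  obtain ⟨hd1, hd2⟩ := hd
  refine cp_ex_le ?_ (by fun_prop)
  refine cp_ex_le ?_ (by fun_prop)
  refine cp_ex_le ?_ (by fun_prop)
  refine cp_ex_le ?_ (by fun_prop)
  refine cp_ex_le ?_ (by fun_prop)
  refine cp_ex_le ?_ (by fun_prop)
  refine RE.cp_and ?_ (RE.cp_and ?_ (RE.cp_and ?_ (RE.cp_and (RE.cp_const _)
    (RE.cp_and (RE.cp_const _) (RE.cp_and ?_ (RE.cp_and ?_ (RE.cp_and ?_ ?_)))))))
  · exact cLG D hL hw l (by fun_prop) (by fun_prop) (by fun_prop) (by fun_prop) (by fun_prop)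
      (by fun_prop)
  · exact cRG D hL hw i (by fun_prop) (by fun_prop) (by fun_prop) (by fun_prop) (by fun_prop)
      (by fun_prop)
  · exact cIsBad D hL E (by fun_prop) (by fun_prop)
  · exact cInside (by fun_prop) (by fun_prop)
      (cTL D hw l (by fun_prop) (by fun_prop) (by fun_prop))
  · exact cInside (by fun_prop) (by fun_prop)
      (cTR D hw i (by fun_prop) (by fun_prop) (by fun_prop))
  · exact cCover D hL C (by fun_prop) (by fun_prop)
      (cTL D hw l (by fun_prop) (by fun_prop) (by fun_prop))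
      (cTR D hw i (by fun_prop) (by fun_prop) (by fun_prop))
  · exact RE.cp_comp (p := fun p : ℕ × ℕ × ℕ × ℕ =>
        D.Link l i E C p.1 (p.2.1 + D.β) (p.2.2.1 + D.β) p.2.2.2)
        (f := fun x : ((((((((ℕ × ℕ × ℕ × ℕ) × List (Fin n) × List (Fin n) ×
          List (List (Fin n))) × ℕ) × ℕ) × ℕ) × ℕ) × ℕ) × ℕ) =>
          (x.1.1.1.1.1.2, x.1.1.1.1.2, x.1.1.2, x.1.2))
        (hK l i E C hd1 hd2) (by fun_prop)

end Q67.QM
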