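import Pool.Agent.Q67.QM.W

set_option autoImplicit false

namespace Q67.QM

variable {n : ℕ}

/-- Coordinates: `w = TL ++ m' ++ TR` is a block of a point `x ∈ X` at position `0`. -/
theorem coords {X : Set (Pt n)} (D : Dat X) {l i : Fin D.m} {a b p a' b' q : ℕ} {r ρ : ℕ}
    {u v : List (Fin n)} (hl : D.LG r ρ u l a b p) (hr : D.RG r ρ v i a' b' q)
    (m' : List (Fin n))
    (hbig : D.win l a (b + D.β) ++ m' ++ D.win i (a' + D.β) b' ∈ Lang X) :
    ∃ x ∈ X, D.TL l a b p = word x 0 (a + (b + D.β) - p) ∧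
      m' = word x ((a + (b + D.β) - p : ℕ) : ℤ) m'.length ∧
      D.TR i a' b' q = word x ((a + (b + D.β) - p + m'.length : ℕ) : ℤ) q ∧
      D.TL l a b p ++ m' ++ D.TR i a' b' q =
        word x 0 ((a + (b + D.β) - p) + m'.length + q) ∧
      D.Z l i a (b + D.β) (a' + D.β) b' m' =
        word x (((a + (b + D.β) - p : ℕ) : ℤ) - D.d) (D.d + m'.length + D.d) ∧
      (∀ t : ℕ, t < a + (b + D.β) - p → x (t : ℤ) = D.x l ((p : ℤ) - a + t)) ∧
      (∀ t : ℕ, t < q → x (((a + (b + D.β) - p + m'.length : ℕ) : ℤ) + t) =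
        D.x i (-((a' + D.β : ℕ) : ℤ) + t)) := by
  obtain ⟨x0, hx0, k, hk⟩ := hbig
  have hwl : (D.win l a (b + D.β)).length = a + (b + D.β) := by
    unfold Dat.win; rw [word_length]
  have hwr : (D.win i (a' + D.β) b').length = (a' + D.β) + b' := by
    unfold Dat.win; rw [word_length]
  have hK : D.K r = r + 1 + D.d := rfl
  have hl2 := hl.2.1
  have hr1 := hr.2.1
  have hp : p ≤ a + (b + D.β) := by omega
  have hq : q ≤ (a' + D.β) + b' := hr.2.2.1
  have hlen : (D.win l a (b + D.β) ++ m' ++ D.win i (a' + D.β) b').length =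
      (a + (b + D.β)) + m'.length + ((a' + D.β) + b') := by
    simp only [List.length_append, hwl, hwr]
  rw [hlen, word_add, word_add] at hk
  have h1 := List.append_inj hk (by simp only [List.length_append, word_length, hwl])
  have h2 := List.append_inj h1.1 (by rw [word_length, hwl])
  have e1 := h2.1
  have e2 := h2.2
  have e3 := h1.2
  have c0 : ((a + (b + D.β) - p : ℕ) : ℤ) = a + (b + D.β) - p := by omega
  have A1 : D.TL l a b p = word (tr (k + p) x0) 0 (a + (b + D.β) - p) := by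
    unfold Dat.TL
    rw [← e1, word_drop _ _ _ _ hp, word_tr, zero_add]
  have A2 : m' = word (tr (k + p) x0) ((a + (b + D.β) - p : ℕ) : ℤ) m'.length := by
    rw [word_tr]
    conv_lhs => rw [← e2]
    congr 1
    rw [c0]; push_cast; ring
  have A3 : D.TR i a' b' q =
      word (tr (k + p) x0) ((a + (b + D.β) - p + m'.length : ℕ) : ℤ) q := by
    unfold Dat.TR
    rw [← e3, word_take _ _ _ _ hq, word_tr]
    congr 1
    push_cast
    rw [c0]; push_cast; ring
  have A5 : D.Z l i a (b + D.β) (a' + D.β) b' m' =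
        word (tr (k + p) x0) (((a + (b + D.β) - p : ℕ) : ℤ) - D.d) (D.d + m'.length + D.d) := by
    unfold Dat.Z
    rw [word_add, word_add]
    congr 1
    · congr 1
      · rw [← e1, word_drop _ _ _ _ (by omega), word_tr]
        have : a + (b + D.β) - (a + (b + D.β) - D.d) = D.d := by omega
        rw [this]
        congr 1
        have c1 : ((a + (b + D.β) - D.d : ℕ) : ℤ) = a + (b + D.β) - D.d := by omega
        rw [c0, c1]; ring
      · conv_lhs => rw [A2]
        congr 1
        ring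
    · rw [← e3, word_take _ _ _ _ (by omega), word_tr]
      congr 1
      push_cast
      rw [c0]; push_cast; ring
  refine ⟨tr (k + p) x0, tr_mem D hx0 _, A1, A2, A3, ?_, A5, ?_, ?_⟩
  · rw [word_add, word_add, ← A1]
    congr 1
    · congr 1
      rw [zero_add]; exact A2
    · rw [A3]; congr 1; push_cast; ring
  · intro t ht
    have h3 : word x0 k (a + (b + D.β)) = word (D.x l) (-(a : ℤ)) (a + (b + D.β)) := e1
    have h4 := (word_eq_iff _ _ _ _ _).1 h3 (p + t) (by omega)
    show x0 ((t : ℤ) + (k + p)) = _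
    have c1 : (t : ℤ) + (k + p) = k + ((p + t : ℕ) : ℤ) := by push_cast; ring
    rw [c1, h4]
    congr 1
    push_cast; ring
  · intro t ht
    have h3 : word x0 (k + ((a + (b + D.β) + m'.length : ℕ) : ℤ)) ((a' + D.β) + b') =
        word (D.x i) (-((a' + D.β : ℕ) : ℤ)) ((a' + D.β) + b') := e3
    have h4 := (word_eq_iff _ _ _ _ _).1 h3 t (by omega)
    show x0 ((((a + (b + D.β) - p + m'.length : ℕ) : ℤ) + t) + (k + p)) = _
    rw [← h4]
    congr 1
    push_cast
    rw [c0]; push_cast; ring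

/-- A block inside a block. -/
theorem block_infix (x : Pt n) {i i' : ℤ} {k k' : ℕ} (h1 : i ≤ i') (h2 : i' + k' ≤ i + k) :
    word x i' k' <:+: word x i k := by
  rw [infix_word]
  refine ⟨(i' - i).toNat, ?_, ?_⟩
  · rw [word_length]; omega
  · rw [word_length]
    congr 1
    omega

/-- Local analysis around a position of a point of `X`. -/
theorem local_good {X : Set (Pt n)} (D : Dat X) {r ρ : ℕ} (hg : D.Good r ρ) {x : Pt n}
    (hx : x ∈ X) (P : ℤ) :
    ∃ j, word x P (D.K r) ∈ D.L j ∧ (∃ P' : ℤ, P - ρ ≤ P' ∧ P' + D.d ≤ P + D.K r + ρ ∧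
      word x P' D.d = D.core j) ∧ D.Sat r j (word x (P - ρ) (ρ + D.K r + ρ)) := by
  obtain ⟨j, h1, h2, h3⟩ := hg (word x (P - ρ) (ρ + D.K r + ρ))
    ⟨x, hx, word_mem_PLang _ _ _⟩ (word_length _ _ _)
  refine ⟨j, ?_, ?_, h3⟩
  · rw [word_drop_take _ _ _ _ _ (by omega)] at h1
    have : P - (ρ : ℤ) + (ρ : ℕ) = P := by ring
    rwa [this] at h1
  · rw [infix_word] at h2
    obtain ⟨t, ht, hte⟩ := h2
    have hl : (D.core j).length = D.d := word_length _ _ _
    rw [hl] at ht hte
    exact ⟨P - ρ + t, by omega, by omega, hte⟩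

end Q67.QM
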