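import Mathlib

/-!
Definitions for MP_752584_lc: model checking of countable quasiminimal recursive subshifts for
locally testable languages.
-/

set_option autoImplicit false

namespace Q67.QM

/-- The points of the full shift over the alphabet `Fin n`. -/
abbrev Pt (n : ℕ) : Type := ℤ → Fin n

variable {n : ℕ}

/-- The left shift. -/
def shift (x : Pt n) : Pt n := fun i => x (i + 1)

/-- A subshift: a closed set `X` with `shift '' X = X`. -/
def IsSubshift (X : Set (Pt n)) : Prop := IsClosed X ∧ shift '' X = X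

/-- The block `x i, x (i+1), ..., x (i+k-1)` of length `k` of `x` that starts at `i`. -/
def word (x : Pt n) (i : ℤ) (k : ℕ) : List (Fin n) := (List.range k).map fun j => x (i + (j : ℤ))

/-- The words that occur in the point `x`. -/
def PLang (x : Pt n) : Set (List (Fin n)) := {w | ∃ i : ℤ, word x i w.length = w}

/-- The language of `X`: the words that occur in some point of `X`. -/
def Lang (X : Set (Pt n)) : Set (List (Fin n)) := {w | ∃ x ∈ X, w ∈ PLang x}

/-- The words of length at least `r + 1` with prefix `u` of length `r`, suffix `v` of length `r`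
and with set of factors of length `r + 1` equal to (the set of members of) `F`. -/
def Atom (r : ℕ) (u v : List (Fin n)) (F : List (List (Fin n))) (w : List (Fin n)) : Prop :=
  r + 1 ≤ w.length ∧ w.take r = u ∧ w.drop (w.length - r) = v ∧
    ∀ e, e ∈ F ↔ (e.length = r + 1 ∧ e <:+: w)

/-- A finite presentation of a locally testable language: the number `r = k - 1`, a list of
triples (prefix, suffix, list of factors) and a list of short words. -/
abbrev Query (n : ℕ) : Type :=
  ℕ × List (List (Fin n) × List (Fin n) × List (List (Fin n))) × List (List (Fin n))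

/-- The language presented by a query. -/
def qlang (q : Query n) : Set (List (Fin n)) :=
  {w | (w.length ≤ q.1 ∧ w ∈ q.2.2) ∨ ∃ τ ∈ q.2.1, Atom q.1 τ.1 τ.2.1 τ.2.2 w}

/-- Locally testable languages. -/
def IsLocallyTestable (Λ : Set (List (Fin n))) : Prop :=
  ∃ k : ℕ, 1 ≤ k ∧ ∀ w w' : List (Fin n), k ≤ w.length → k ≤ w'.length →
    w.take (k - 1) = w'.take (k - 1) →
    w.drop (w.length - (k - 1)) = w'.drop (w'.length - (k - 1)) →
    (∀ e : List (Fin n), e.length = k → (e <:+: w ↔ e <:+: w')) → (w ∈ Λ ↔ w' ∈ Λ)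

/-- A finite automaton as finite data: number of states, initial state, transition table (the
list of triples (state, letter, next state)), list of accepting states. -/
abbrev Auto (n : ℕ) : Type := ℕ × (List (ℕ × Fin n × ℕ)) × List ℕ

/-- The state reached from the state `s` by the letter `a`: the first entry `(s, a, t)` of the
table (state `0` if there is none). -/
def Auto.step (A : Auto n) (s : ℕ) (a : Fin n) : ℕ :=
  ((A.2.1.find? fun e => e.1 = s ∧ e.2.1 = a).map fun e => e.2.2).getD 0

/-- The language of an automaton. -/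
def Auto.lang (A : Auto n) : Set (List (Fin n)) := {w | w.foldl A.step A.1 ∈ A.2.2}

/-- All words of length `k` over `Fin n`. -/
def words (n : ℕ) : ℕ → List (List (Fin n))
  | 0 => [[]]
  | k + 1 => (words n k).flatMap fun w => (List.finRange n).map fun a => a :: w

/-- A (very generous) bound for the length of the words on which an automaton and a query have to
be compared. -/
def bnd (A : Auto n) (q : Query n) : ℕ :=
  (A.2.1.length + 2) * ((q.1 + 1) * (n + 1) ^ q.1 +
    (n + 1) ^ q.1 * (n + 1) ^ q.1 * 2 ^ ((n + 1) ^ (q.1 + 1)))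

/-! ### Combinatorial data of a closed set that is a finite union of orbits -/

/-- Translate of a point. -/
def tr (s : ℤ) (x : Pt n) : Pt n := fun i => x (i + s)

/-- The data: `x j` (`j < m`) represent all orbits of `X`; the *core* of `x j` is its block
`[0, d)`; the core of `x j` occurs in `x i` only if all words of `x j` occur in `x i`; `x j` is the
only point of `X` with language inside that of `x j` and with its core at `0`.
`Jr l` is the set of `j` such that the core of `x j` occurs arbitrarily far to the right in `x l`;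
the other cores do not occur in `x l` at positions `≥ B`.  `Jl l` is the same on the left: the
other cores do not occur in `x l` inside `(-∞, -B)`. -/
structure Dat (X : Set (Pt n)) where
  m : ℕ
  x : Fin m → Pt n
  d : ℕ
  B : ℕ
  Jr : Fin m → Finset (Fin m)
  Jl : Fin m → Finset (Fin m)
  dpos : 0 < d
  mem_iff : ∀ z, z ∈ X ↔ ∃ j, ∃ s : ℤ, z = tr s (x j)
  core_sub : ∀ i j, word (x j) 0 d ∈ PLang (x i) → PLang (x j) ⊆ PLang (x i)
  iso : ∀ j, ∀ z ∈ X, PLang z ⊆ PLang (x j) → word z 0 d = word (x j) 0 d → z = x j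
  jr_mem : ∀ l, ∀ j ∈ Jr l, ∀ N : ℤ, ∃ p : ℤ, N ≤ p ∧ word (x l) p d = word (x j) 0 d
  jr_not : ∀ l j, j ∉ Jr l → ∀ p : ℤ, (B : ℤ) ≤ p → word (x l) p d ≠ word (x j) 0 d
  jl_mem : ∀ l, ∀ j ∈ Jl l, ∀ N : ℤ, ∃ p : ℤ, p ≤ N ∧ word (x l) p d = word (x j) 0 d
  jl_not : ∀ l j, j ∉ Jl l → ∀ p : ℤ, p + d ≤ -(B : ℤ) → word (x l) p d ≠ word (x j) 0 d

namespace Dat

variable {X : Set (Pt n)} (D : Dat X)

/-- The core of `x j`. -/
def core (j : Fin D.m) : List (Fin n) := word (D.x j) 0 D.d

/-- The words of `x j`. -/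
def L (j : Fin D.m) : Set (List (Fin n)) := PLang (D.x j)

/-- The window `[-a, b)` of `x j`. -/
def win (j : Fin D.m) (a b : ℕ) : List (Fin n) := word (D.x j) (-(a : ℤ)) (a + b)

/-- All words of length `r + 1` of `x j` occur in `W`. -/
def Sat (r : ℕ) (j : Fin D.m) (W : List (Fin n)) : Prop :=
  ∀ e : List (Fin n), e.length = r + 1 → e ∈ D.L j → e <:+: W

/-- The length of the blocks used in the local analysis. -/
def K (r : ℕ) : ℕ := r + 1 + D.d

/-- The constant `β = B + 2 d`. -/
def β : ℕ := D.B + 2 * D.d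

/-- `ρ` is a good radius for `r`: the middle block (length `K`) of every word of `X` of length
`ρ + K + ρ` is a word of some `x j` such that the whole word contains the core of `x j` and all
words of length `r + 1` of `x j`. -/
def Good (r ρ : ℕ) : Prop :=
  ∀ W ∈ Lang X, W.length = ρ + D.K r + ρ →
    ∃ j, (W.drop ρ).take (D.K r) ∈ D.L j ∧ D.core j <:+: W ∧ D.Sat r j W

/-- The part to the right of index `p` of the window `[-a, b+β)` of `x l` (left end of the
words). -/
def TL (l : Fin D.m) (a b p : ℕ) : List (Fin n) := (D.win l a (b + D.β)).drop p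

/-- The part to the left of index `q` of the window `[-(a+β), b)` of `x i` (right end of the
words). -/
def TR (i : Fin D.m) (a b q : ℕ) : List (Fin n) := (D.win i (a + D.β) b).take q

/-- The tuple `(l, a, b, p)` is good for the prefix `u`. -/
def LG (r ρ : ℕ) (u : List (Fin n)) (l : Fin D.m) (a b p : ℕ) : Prop :=
  (D.TL l a b p).take r = u ∧ p + 2 * ρ + 2 * D.K r ≤ a + (b + D.β) ∧ ρ + D.K r ≤ b ∧
    ∀ j ∈ D.Jr l, D.Sat r j (D.TL l a b p)

/-- The tuple `(i, a, b, q)` is good for the suffix `v`. -/
def RG (r ρ : ℕ) (v : List (Fin n)) (i : Fin D.m) (a b q : ℕ) : Prop :=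
  (D.TR i a b q).drop (q - r) = v ∧ 2 * ρ + 2 * D.K r ≤ q ∧ q ≤ (a + D.β) + b ∧
    ρ + D.K r ≤ a ∧ ∀ j ∈ D.Jl i, D.Sat r j (D.TR i a b q)

/-- `R` is a complete radius for the prefix `u`. -/
def LComp (r ρ : ℕ) (u : List (Fin n)) (R : ℕ) : Prop :=
  ∀ W ∈ Lang X, W.length = R + r + R → (W.drop R).take r = u →
    ∃ l : Fin D.m, ∃ a b p : ℕ, a ≤ R ∧ b ≤ R ∧ p ≤ R ∧ D.LG r ρ u l a b p ∧
      a + (b + D.β) ≤ p + r + R ∧
      (W.drop (R - p)).take (a + (b + D.β)) = D.win l a (b + D.β)

/-- `R` is a complete radius for the suffix `v`. -/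
def RComp (r ρ : ℕ) (v : List (Fin n)) (R : ℕ) : Prop :=
  ∀ W ∈ Lang X, W.length = R + r + R → (W.drop R).take r = v →
    ∃ i : Fin D.m, ∃ a b q : ℕ, a ≤ R ∧ b ≤ R ∧ q ≤ R + r ∧ D.RG r ρ v i a b q ∧
      (a + D.β) + b ≤ q + R ∧
      (W.drop (R + r - q)).take ((a + D.β) + b) = D.win i (a + D.β) b

/-- The middle part seen by the cores: the last `d` letters of the left window, the word `m'` and
the first `d` letters of the right window. -/
def Z (l i : Fin D.m) (a b a' b' : ℕ) (m' : List (Fin n)) : List (Fin n) :=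
  (D.win l a b).drop (a + b - D.d) ++ m' ++ (D.win i a' b').take D.d

/-- Link: some word of `X` starts with the window `[-a, b)` of `x l`, ends with the window
`[-a', b')` of `x i`, and its middle part avoids the cores with index in `E` and contains the cores
with index in `C`. -/
def Link (l i : Fin D.m) (E C : Finset (Fin D.m)) (a b a' b' : ℕ) : Prop :=
  ∃ m' : List (Fin n), D.win l a b ++ m' ++ D.win i a' b' ∈ Lang X ∧
    (∀ j ∈ E, ¬ D.core j <:+: D.Z l i a b a' b' m') ∧
    (∀ j ∈ C, D.core j <:+: D.Z l i a b a' b' m')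

/-- All factors of length `r + 1` of `W` belong to `F`. -/
def Inside (r : ℕ) (F : List (List (Fin n))) (W : List (Fin n)) : Prop :=
  ∀ e : List (Fin n), e.length = r + 1 → e <:+: W → e ∈ F

/-- `E` is exactly the set of the `j` for which some word of length `r + 1` of `x j` is not in
`F`. -/
def IsBad (r : ℕ) (F : List (List (Fin n))) (E : Finset (Fin D.m)) : Prop :=
  ∀ j, j ∈ E ↔ ¬ ∀ e : List (Fin n), e.length = r + 1 → e ∈ D.L j → e ∈ F

/-- Every member of `F` has length `r + 1` and is a factor of `T` or of `T'` or a word of `x j` for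
some `j ∈ C`. -/
def Cover (r : ℕ) (F : List (List (Fin n))) (T T' : List (Fin n)) (C : Finset (Fin D.m)) : Prop :=
  ∀ e ∈ F, e.length = r + 1 ∧ (e <:+: T ∨ e <:+: T' ∨ ∃ j ∈ C, e ∈ D.L j)

/-- The finite condition for long words. -/
def Long (r ρ R R' : ℕ) (u v : List (Fin n)) (F : List (List (Fin n))) : Prop :=
  ∃ l i : Fin D.m, ∃ E C : Finset (Fin D.m), ∃ a ≤ R, ∃ b ≤ R, ∃ p ≤ R, ∃ a' ≤ R', ∃ b' ≤ R',
    ∃ q ≤ R' + r,
    D.LG r ρ u l a b p ∧ D.RG r ρ v i a' b' q ∧ D.IsBad r F E ∧
    Disjoint E (D.Jr l) ∧ Disjoint E (D.Jl i) ∧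
    Inside r F (D.TL l a b p) ∧ Inside r F (D.TR i a' b' q) ∧
    D.Cover r F (D.TL l a b p) (D.TR i a' b' q) C ∧
    D.Link l i E C a (b + D.β) (a' + D.β) b'

end Dat

end Q67.QM
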