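import Pool.Agent.Q67.QM.Defs
import Pool.Agent.Helper806.RD.CP

set_option autoImplicit false

namespace Q67.QM

open Pool.Agent.Helper806

variable {n : ℕ}

/-- The upper set generated by a list is primitive recursive. -/
theorem primrec_upper (L : List (ℕ × ℕ × ℕ × ℕ)) : PrimrecPred fun p : ℕ × ℕ × ℕ × ℕ =>
    ∃ g ∈ L, g.1 ≤ p.1 ∧ g.2.1 ≤ p.2.1 ∧ g.2.2.1 ≤ p.2.2.1 ∧ g.2.2.2 ≤ p.2.2.2 := by
  induction L with
  | nil =>
    refine (((Primrec.nat_le.comp (Primrec.const 1) (Primrec.const 0)) :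
      PrimrecPred fun p : ℕ × ℕ × ℕ × ℕ => 1 ≤ 0)).of_eq fun p => ?_
    simp
  | cons g L ih =>
    have h1 : PrimrecPred fun p : ℕ × ℕ × ℕ × ℕ => g.1 ≤ p.1 :=
      Primrec.nat_le.comp (Primrec.const g.1) Primrec.fst
    have h2 : PrimrecPred fun p : ℕ × ℕ × ℕ × ℕ => g.2.1 ≤ p.2.1 :=
      Primrec.nat_le.comp (Primrec.const g.2.1) (Primrec.fst.comp Primrec.snd)
    have h3 : PrimrecPred fun p : ℕ × ℕ × ℕ × ℕ => g.2.2.1 ≤ p.2.2.1 :=
      Primrec.nat_le.comp (Primrec.const g.2.2.1) (Primrec.fst.comp (Primrec.snd.comp Primrec.snd))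
    have h4 : PrimrecPred fun p : ℕ × ℕ × ℕ × ℕ => g.2.2.2 ≤ p.2.2.2 :=
      Primrec.nat_le.comp (Primrec.const g.2.2.2) (Primrec.snd.comp (Primrec.snd.comp Primrec.snd))
    refine ((h1.and (h2.and (h3.and h4))).or ih).of_eq fun p => ?_
    simp

/-- JOB DICK (file Dick.lean).  By Dickson's lemma (`ℕ × ℕ × ℕ × ℕ` is well quasi-ordered) the upper
set `¬ A` is generated by a finite set; membership is `∃ g ∈ list, g ≤ p`. -/
theorem lower_computable (A : ℕ → ℕ → ℕ → ℕ → Prop)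
    (h : ∀ a b c d a' b' c' d' : ℕ, a ≤ a' → b ≤ b' → c ≤ c' → d ≤ d' → A a' b' c' d' →
      A a b c d) :
    ComputablePred fun p : ℕ × ℕ × ℕ × ℕ => A p.1 p.2.1 p.2.2.1 p.2.2.2 := by
  have hfin : {g : ℕ × ℕ × ℕ × ℕ |
      Minimal (fun p : ℕ × ℕ × ℕ × ℕ => ¬ A p.1 p.2.1 p.2.2.1 p.2.2.2) g}.Finite :=
    WellQuasiOrderedLE.finite_of_isAntichain (setOfPred_minimal_antichain _)
  have h1 := (primrec_upper hfin.toFinset.toList).not
  refine (h1.of_eq fun p => ?_).computablePred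
  constructor
  · intro hp
    by_contra hA
    obtain ⟨g, hg, hmin⟩ := exists_minimal_le_of_wellFoundedLT
      (fun p : ℕ × ℕ × ℕ × ℕ => ¬ A p.1 p.2.1 p.2.2.1 p.2.2.2) p hA
    exact hp ⟨g, by simpa using hmin, hg.1, hg.2.1, hg.2.2.1, hg.2.2.2⟩
  · rintro hA ⟨g, hg, h1, h2, h3, h4⟩
    have hmin : Minimal (fun p : ℕ × ℕ × ℕ × ℕ => ¬ A p.1 p.2.1 p.2.2.1 p.2.2.2) g := by
      simpa using hg
    exact hmin.1 (h _ _ _ _ _ _ _ _ h1 h2 h3 h4 hA)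

end Q67.QM
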