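import Pool.Agent.Q67.QM.W

set_option autoImplicit false

namespace Q67.QM

variable {n : ℕ}

/-- JOB SPLIT (file Split.lean; imports W).  `w = word x i0 |w|` with `x ∈ X`.  Apply `LComp` to
`word x (i0 - R) (R + r + R)` (its block of length `r` at index `R` is `w.take r = u`): the window
`win l a (b + β)` occurs in `x` at `i0 - p`, and its part `TL` to the right of index `p` occurs at
`i0` and has length `a + (b + β) - p ≤ R + r`.  Apply `RComp` to
`word x (i0 + |w| - r - R') (R' + r + R')`: the window `win i (a' + β) b'` occurs in `x` at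
`i0 + |w| - q`, and its part `TR` to the left of index `q` ends at `i0 + |w|`; `q ≤ R' + r`.  By
`hlen` the two parts do not overlap. -/
theorem split {X : Set (Pt n)} (D : Dat X) {r ρ R R' : ℕ} {u v : List (Fin n)}
    (hL : D.LComp r ρ u R) (hR : D.RComp r ρ v R') {w : List (Fin n)} (hw : w ∈ Lang X)
    (hlen : (R + r) + (R' + r) ≤ w.length) (hu : w.take r = u)
    (hv : w.drop (w.length - r) = v) :
    ∃ (l i : Fin D.m) (a b p a' b' q : ℕ) (m' : List (Fin n)),
      a ≤ R ∧ b ≤ R ∧ p ≤ R ∧ a' ≤ R' ∧ b' ≤ R' ∧ q ≤ R' + r ∧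
      D.LG r ρ u l a b p ∧ D.RG r ρ v i a' b' q ∧
      w = D.TL l a b p ++ m' ++ D.TR i a' b' q ∧
      D.win l a (b + D.β) ++ m' ++ D.win i (a' + D.β) b' ∈ Lang X := by
  obtain ⟨x, hx, i0, hxw⟩ := hw
  generalize hN : w.length = N at *
  obtain ⟨l, a, b, p, h1, h2, h3, hlg, h4, h5⟩ := hL (word x (i0 - R) (R + r + R))
    ⟨x, hx, word_mem_PLang _ _ _⟩ (word_length _ _ _) (by
      rw [word_drop_take _ _ _ _ _ (by omega), ← hu, ← hxw, word_take _ _ _ _ (by omega)]
      congr 1; ring)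
  obtain ⟨i, a', b', q, g1, g2, g3, hrg, g4, g5⟩ := hR
    (word x (i0 + N - r - R') (R' + r + R'))
    ⟨x, hx, word_mem_PLang _ _ _⟩ (word_length _ _ _) (by
      rw [word_drop_take _ _ _ _ _ (by omega), ← hv, ← hxw, word_drop _ _ _ _ (by omega)]
      have e : N - (N - r) = r := by omega
      rw [e]
      congr 1
      have : ((N - r : ℕ) : ℤ) = N - r := by omega
      rw [this]; ring)
  have hK : D.K r = r + 1 + D.d := rfl
  have hlg2 := hlg.2.1
  have hrg2 := hrg.2.1
  have hrg3 := hrg.2.2.1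
  have hbb : b + D.β ≤ a + (b + D.β) := Nat.le_add_left _ _
  -- the left window
  have hwl : D.win l a (b + D.β) = word x (i0 - p) (a + (b + D.β)) := by
    rw [← h5, word_drop_take _ _ _ _ _ (by omega)]
    congr 1
    have : ((R - p : ℕ) : ℤ) = R - p := by omega
    rw [this]; ring
  have hwr : D.win i (a' + D.β) b' = word x (i0 + N - q) ((a' + D.β) + b') := by
    rw [← g5, word_drop_take _ _ _ _ _ (by omega)]
    congr 1
    have : ((R' + r - q : ℕ) : ℤ) = R' + r - q := by omega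
    rw [this]; ring
  have hTL : D.TL l a b p = word x i0 (a + (b + D.β) - p) := by
    unfold Dat.TL
    rw [hwl, word_drop _ _ _ _ (by omega)]
    congr 1; ring
  have hTR : D.TR i a' b' q = word x (i0 + N - q) q := by
    unfold Dat.TR
    rw [hwr, word_take _ _ _ _ hrg3]
  refine ⟨l, i, a, b, p, a', b', q,
    word x (i0 + ((a + (b + D.β) - p : ℕ) : ℤ)) (N - (a + (b + D.β) - p) - q),
    h1, h2, h3, g1, g2, g3, hlg, hrg, ?_, ?_⟩
  · rw [hTL, hTR, ← hxw, ← word_add]
    have e1 : N = ((a + (b + D.β) - p) + (N - (a + (b + D.β) - p) - q)) + q := by omega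
    conv_lhs => rw [e1]
    rw [word_add x i0 (a + (b + D.β) - p + (N - (a + (b + D.β) - p) - q)) q]
    congr 2
    omega
  · rw [hwl, hwr]
    have e0 : i0 + ((a + (b + D.β) - p : ℕ) : ℤ) = (i0 - p) + ((a + (b + D.β) : ℕ) : ℤ) := by
      omega
    rw [e0, ← word_add]
    have e2 : i0 + (N : ℤ) - q =
        (i0 - p) + ((a + (b + D.β) + (N - (a + (b + D.β) - p) - q) : ℕ) : ℤ) := by omega
    rw [e2, ← word_add]
    exact ⟨x, hx, word_mem_PLang _ _ _⟩

end Q67.QM
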