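import Pool.Agent.Q67.QM.W
import Pool.Agent.Q67.QM.Loc1
import Pool.Agent.Q67.QM.Loc2
import Pool.Agent.Q67.QM.Split

set_option autoImplicit false

namespace Q67.QM

variable {n : ℕ}

/-- JOB FWD (file Fwd.lean; imports W, Loc1, Loc2, Split).  Take the data of `split`,
`E = {j | ¬ every word of length r+1 of x j is in F}` (classical Finset), `C = {j | core j <:+: Z}`.
`Atom` says: `F` = the factors of length `r+1` of `w`.  `j ∈ Jr l`: `LG` gives `Sat r j T`, so all
words of length `r+1` of `x j` are factors of `T`, hence of `w`, hence in `F`: `j ∉ E`; same for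
`Jl i`.  `j ∈ C`: `loc2` gives that they are factors of `w`, so `j ∉ E`.  `Cover`: `loc1`. -/
theorem fwd {X : Set (Pt n)} (D : Dat X) {r ρ R R' : ℕ} {u v : List (Fin n)}
    {F : List (List (Fin n))} (hg : D.Good r ρ) (hL : D.LComp r ρ u R) (hR : D.RComp r ρ v R')
    {w : List (Fin n)} (hw : w ∈ Lang X) (hA : Atom r u v F w)
    (hlen : (R + r) + (R' + r) ≤ w.length) : D.Long r ρ R R' u v F := by
  classical
  obtain ⟨-, hu, hv, hF⟩ := hA
  obtain ⟨l, i, a, b, p, a', b', q, m', h1, h2, h3, h4, h5, h6, hlg, hrg, hweq, hbig⟩ :=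
    split D hL hR hw hlen hu hv
  have hTw : D.TL l a b p <:+: w := by
    rw [hweq, List.append_assoc]; exact (List.prefix_append _ _).isInfix
  have hT'w : D.TR i a' b' q <:+: w := by
    rw [hweq]; exact (List.suffix_append _ _).isInfix
  refine ⟨l, i, Finset.univ.filter fun j =>
      ¬ ∀ e : List (Fin n), e.length = r + 1 → e ∈ D.L j → e ∈ F,
    Finset.univ.filter fun j => D.core j <:+: D.Z l i a (b + D.β) (a' + D.β) b' m',
    a, h1, b, h2, p, h3, a', h4, b', h5, q, h6, hlg, hrg, ?_, ?_, ?_, ?_, ?_, ?_, m', hbig, ?_, ?_⟩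
  · intro j
    simp
  · rw [Finset.disjoint_left]
    intro j hj hj'
    rw [Finset.mem_filter] at hj
    exact hj.2 fun e he hej => (hF e).2 ⟨he, (hlg.2.2.2 j hj' e he hej).trans hTw⟩
  · rw [Finset.disjoint_left]
    intro j hj hj'
    rw [Finset.mem_filter] at hj
    exact hj.2 fun e he hej => (hF e).2 ⟨he, (hrg.2.2.2.2 j hj' e he hej).trans hT'w⟩
  · exact fun e he hew => (hF e).2 ⟨he, hew.trans hTw⟩
  · exact fun e he hew => (hF e).2 ⟨he, hew.trans hT'w⟩
  · intro e he
    obtain ⟨hel, hew⟩ := (hF e).1 he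
    refine ⟨hel, ?_⟩
    rw [hweq] at hew
    rcases loc1 D hg hlg hrg m' hbig e hel hew with h | h | ⟨j, hj, hz⟩
    · exact Or.inl h
    · exact Or.inr (Or.inl h)
    · exact Or.inr (Or.inr ⟨j, by simpa using hz, hj⟩)
  · intro j hj hz
    rw [Finset.mem_filter] at hj
    refine hj.2 fun e he hej => (hF e).2 ⟨he, ?_⟩
    rw [hweq]
    exact loc2 D hg hlg hrg m' hbig j hz e he hej
  · intro j hj
    rw [Finset.mem_filter] at hj
    exact hj.2

end Q67.QM
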