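import Pool.Agent.Q67.QM.Coord

set_option autoImplicit false

namespace Q67.QM

variable {n : ℕ}

/-- JOB MONO (file Mono.lean; imports W).  `win l a2 (b2 + β) = s ++ win l a (b + β) ++ t` with
`|s| = a2 - a`, `|t| = b2 - b`; `win i (a2' + β) b2' = t' ++ win i (a' + β) b' ++ s'` with
`|t'| = a2' - a'`.  If `m2` is the middle word for the large windows, `m = t ++ m2 ++ t'` works for
the small ones (`Lang X` is closed under factors).  Its `Z` is the block from `d` letters before the
end of the small left window to `d` letters after the start of the small right window; it contains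
the old `Z` as a factor, so it contains the cores with index in `C`.  Let `j ∈ E` and suppose
`core j` (length `d`) occurs in the new `Z`.  If the occurrence starts before the old `Z` does, it
is inside the block `[b + β - d, b2 + β)` of `x l`, at a position `≥ b + β - d ≥ B`: impossible by
`jr_not` (`j ∉ Jr l`).  If it ends after the old `Z` does, it is inside the block
`[-(a2' + β), -(a' + β) + d)` of `x i` and ends at `≤ -(a' + β) + d ≤ -B`: impossible by
`jl_not`.  Otherwise it is inside the old `Z`. -/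
theorem link_mono {X : Set (Pt n)} (D : Dat X) {l i : Fin D.m} {E C : Finset (Fin D.m)}
    (hE : Disjoint E (D.Jr l)) (hE' : Disjoint E (D.Jl i))
    {a b a' b' a2 b2 a2' b2' : ℕ} (ha : a ≤ a2) (hb : b ≤ b2) (ha' : a' ≤ a2') (hb' : b' ≤ b2')
    (h : D.Link l i E C a2 (b2 + D.β) (a2' + D.β) b2') :
    D.Link l i E C a (b + D.β) (a' + D.β) b' := by
  obtain ⟨m2, hbig, hno, hyes⟩ := h
  obtain ⟨x0, hx0, k, hk⟩ := hbig
  have hβ : D.β = D.B + 2 * D.d := rfl
  have hwl : (D.win l a2 (b2 + D.β)).length = a2 + (b2 + D.β) := by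
    unfold Dat.win; rw [word_length]
  have hwr : (D.win i (a2' + D.β) b2').length = (a2' + D.β) + b2' := by
    unfold Dat.win; rw [word_length]
  have hlen : (D.win l a2 (b2 + D.β) ++ m2 ++ D.win i (a2' + D.β) b2').length =
      (a2 + (b2 + D.β)) + m2.length + ((a2' + D.β) + b2') := by
    simp only [List.length_append, hwl, hwr]
  rw [hlen, word_add, word_add] at hk
  have h1 := List.append_inj hk (by simp only [List.length_append, word_length, hwl])
  have h2 := List.append_inj h1.1 (by rw [word_length, hwl])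
  have e1 := h2.1
  have e2 := h2.2
  have e3 := h1.2
  -- the translated point
  obtain ⟨x, hxdef⟩ : ∃ x, x = tr k x0 := ⟨_, rfl⟩
  have hx : x ∈ X := hxdef ▸ tr_mem D hx0 k
  set s := a2 + (b2 + D.β) + m2.length with hs
  have cl : ∀ t : ℕ, t < a2 + (b2 + D.β) → x (t : ℤ) = D.x l (-(a2 : ℤ) + t) := by
    intro t ht
    have h3 : word x0 k (a2 + (b2 + D.β)) = word (D.x l) (-(a2 : ℤ)) (a2 + (b2 + D.β)) := e1
    rw [← (word_eq_iff _ _ _ _ _).1 h3 t ht, hxdef]
    show x0 ((t : ℤ) + k) = _
    congr 1; ring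
  have cr : ∀ t : ℕ, t < (a2' + D.β) + b2' → x ((s : ℤ) + t) =
      D.x i (-((a2' + D.β : ℕ) : ℤ) + t) := by
    intro t ht
    have h3 : word x0 (k + ((s : ℕ) : ℤ)) ((a2' + D.β) + b2') =
        word (D.x i) (-((a2' + D.β : ℕ) : ℤ)) ((a2' + D.β) + b2') := e3
    rw [← (word_eq_iff _ _ _ _ _).1 h3 t ht, hxdef]
    show x0 (((s : ℤ) + t) + k) = _
    congr 1; ring
  have hZ2 : D.Z l i a2 (b2 + D.β) (a2' + D.β) b2' m2 =
      word x (((a2 + (b2 + D.β) : ℕ) : ℤ) - D.d) (D.d + m2.length + D.d) := by
    unfold Dat.Z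
    rw [word_add, word_add]
    congr 1
    · congr 1
      · rw [← e1, word_drop _ _ _ _ (by omega), hxdef, word_tr]
        have : a2 + (b2 + D.β) - (a2 + (b2 + D.β) - D.d) = D.d := by omega
        rw [this]
        congr 1
        omega
      · conv_lhs => rw [← e2]
        rw [hxdef, word_tr]
        congr 1
        push_cast; ring
    · rw [← e3, word_take _ _ _ _ (by omega), hxdef, word_tr]
      congr 1
      push_cast; omega
  -- the small windows
  have wl : D.win l a (b + D.β) = word x (((a2 : ℕ) : ℤ) - a) (a + (b + D.β)) := by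
    unfold Dat.win
    rw [word_eq_iff]
    intro t ht
    have h3 := cl (a2 - a + t) (by omega)
    have h4 : (((a2 - a + t : ℕ)) : ℤ) = ((a2 : ℕ) : ℤ) - a + t := by omega
    rw [h4] at h3
    rw [h3]
    congr 1; ring
  have wr : D.win i (a' + D.β) b' =
      word x ((s : ℤ) + a2' - a') ((a' + D.β) + b') := by
    unfold Dat.win
    rw [word_eq_iff]
    intro t ht
    have h3 := cr (a2' - a' + t) (by omega)
    have h4 : ((s : ℤ) + ((a2' - a' + t : ℕ) : ℤ)) = (s : ℤ) + a2' - a' + t := by omega
    rw [h4] at h3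
    rw [h3]
    congr 1
    push_cast
    omega
  obtain ⟨M, hM⟩ : ∃ M, M = (b2 - b) + m2.length + (a2' - a') := ⟨_, rfl⟩
  have hZ : D.Z l i a (b + D.β) (a' + D.β) b'
      (word x (((a2 + (b + D.β) : ℕ) : ℤ)) M) =
      word x (((a2 + (b + D.β) : ℕ) : ℤ) - D.d) (D.d + M + D.d) := by
    unfold Dat.Z
    rw [word_add, word_add]
    congr 1
    · congr 1
      · rw [wl, word_drop _ _ _ _ (by omega)]
        have : a + (b + D.β) - (a + (b + D.β) - D.d) = D.d := by omega
        rw [this]
        congr 1
        omega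
      · congr 1
        ring
    · rw [wr, word_take _ _ _ _ (by omega)]
      congr 1
      push_cast
      omega
  refine ⟨word x (((a2 + (b + D.β) : ℕ) : ℤ)) M, ?_, ?_, ?_⟩
  · rw [wl, wr]
    have t1 : (((a2 + (b + D.β) : ℕ) : ℤ)) = (((a2 : ℕ) : ℤ) - a) + ((a + (b + D.β) : ℕ) : ℤ) := by
      push_cast; ring
    have t2 : ((s : ℤ) + a2' - a') =
        (((a2 : ℕ) : ℤ) - a) + (((a + (b + D.β)) + M : ℕ) : ℤ) := by
      push_cast; omega
    rw [t1, t2, ← word_add, ← word_add]
    exact ⟨x, hx, word_mem_PLang _ _ _⟩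
  · intro j hj hin
    rw [hZ, infix_word] at hin
    have hcl : (D.core j).length = D.d := word_length _ _ _
    rw [hcl] at hin
    obtain ⟨t, ht, hte⟩ := hin
    obtain ⟨P, hP⟩ : ∃ P : ℤ, P = ((a2 + (b + D.β) : ℕ) : ℤ) - D.d + t := ⟨_, rfl⟩
    rw [← hP] at hte
    by_cases c1 : P < ((a2 + (b2 + D.β) : ℕ) : ℤ) - D.d
    · have hjr : j ∉ D.Jr l := fun hjr => Finset.disjoint_left.1 hE hj hjr
      refine D.jr_not l j hjr (-(a2 : ℤ) + P) (by push_cast at hP; omega) ?_
      show _ = D.core j
      rw [← hte, word_eq_iff]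
      intro t' ht'
      have h5 := cl (P + t').toNat (by omega)
      have h6 : P + t' = ((P + t').toNat : ℤ) := by omega
      rw [h6, h5]
      congr 1
      omega
    · by_cases c2 : P ≤ s
      · refine hno j hj ?_
        rw [hZ2, ← hte]
        exact block_infix x (by omega) (by push_cast; omega)
      · have hjl : j ∉ D.Jl i := fun hjl => Finset.disjoint_left.1 hE' hj hjl
        refine D.jl_not i j hjl (-((a2' + D.β : ℕ) : ℤ) + (P - s))
          (by push_cast at hP ⊢; omega) ?_
        show _ = D.core j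
        rw [← hte, word_eq_iff]
        intro t' ht'
        have h5 := cr (P - s + t').toNat (by omega)
        have h6 : P + t' = (s : ℤ) + ((P - s + t').toNat : ℤ) := by omega
        rw [h6, h5]
        congr 1
        omega
  · intro j hj
    refine (hyes j hj).trans ?_
    rw [hZ, hZ2]
    exact block_infix x (by push_cast; omega) (by push_cast; omega)

end Q67.QM
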