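import Pool.Agent.Q67.QM.W
import Pool.Agent.Q67.QM.Unif
import Pool.Agent.Q67.QM.Coord

set_option autoImplicit false

namespace Q67.QM

variable {n : ℕ}

theorem x_mem {X : Set (Pt n)} (D : Dat X) (l : Fin D.m) : D.x l ∈ X :=
  (D.mem_iff _).2 ⟨l, 0, by funext i; simp [tr]⟩

/-- All words of length `r + 1` of `x j` occur near every occurrence of `core j`. -/
theorem sat_of_core {X : Set (Pt n)} (D : Dat X) {r ρ : ℕ} (hg : D.Good r ρ) {x : Pt n}
    (hx : x ∈ X) {j : Fin D.m} {P : ℤ} (hP : word x P D.d = word (D.x j) 0 D.d)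
    {i : ℤ} {k : ℕ} (h1 : i ≤ P - ρ) (h2 : P + D.K r + ρ ≤ i + k) : D.Sat r j (word x i k) := by
  have hK : D.K r = r + 1 + D.d := rfl
  obtain ⟨j', g1, -, g3⟩ := local_good D hg hx P
  intro e he hej
  have h4 : word (D.x j) 0 D.d ∈ PLang (D.x j') := by
    refine PLang_infix g1 ?_
    rw [← hP]
    exact block_infix x le_rfl (by omega)
  refine (g3 e he (D.core_sub j' j h4 hej)).trans (block_infix x h1 ?_)
  push_cast
  omega

theorem exists_lcomp {X : Set (Pt n)} (hX : IsClosed X) (D : Dat X) (r ρ : ℕ)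
    (hg : D.Good r ρ) (u : List (Fin n)) : ∃ R, D.LComp r ρ u R := by
  have hK : D.K r = r + 1 + D.d := rfl
  suffices h0 : ∃ R : ℕ, ∀ z ∈ X, word z 0 r = u → ∃ l : Fin D.m, ∃ a b p : ℕ,
      a ≤ R ∧ b ≤ R ∧ p ≤ R ∧ D.LG r ρ u l a b p ∧ a + (b + D.β) ≤ p + r + R ∧
      word z (-(p : ℤ)) (a + (b + D.β)) = D.win l a (b + D.β) by
    obtain ⟨R, hR⟩ := h0
    refine ⟨R, ?_⟩
    rintro W ⟨x, hx, i, hi⟩ hlen hWu
    rw [hlen] at hi
    obtain ⟨l, a, b, p, h1, h2, h3, h4, h5, h6⟩ := hR (tr (i + R) x) (tr_mem D hx _) (by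
      rw [word_tr, ← hWu, ← hi, word_drop_take _ _ _ _ _ (by omega)]
      congr 1; ring)
    refine ⟨l, a, b, p, h1, h2, h3, h4, h5, ?_⟩
    rw [← h6, ← hi, word_drop_take _ _ _ _ _ (by omega), word_tr]
    congr 1
    omega
  refine unif hX r (fun z R => word z 0 r = u → ∃ l : Fin D.m, ∃ a b p : ℕ,
      a ≤ R ∧ b ≤ R ∧ p ≤ R ∧ D.LG r ρ u l a b p ∧ a + (b + D.β) ≤ p + r + R ∧
      word z (-(p : ℤ)) (a + (b + D.β)) = D.win l a (b + D.β)) ?_ ?_ ?_
  · intro z R R' hRR' h hz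
    obtain ⟨l, a, b, p, h1, h2, h3, h4, h5, h6⟩ := h hz
    exact ⟨l, a, b, p, h1.trans hRR', h2.trans hRR', h3.trans hRR', h4, by omega, h6⟩
  · intro R z z' hzz' h hz
    have e1 : word z 0 r = word z' 0 r := by
      rw [word_eq_iff]
      intro t ht
      exact hzz' _ (by omega) (by omega)
    obtain ⟨l, a, b, p, h1, h2, h3, h4, h5, h6⟩ := h (e1.trans hz)
    refine ⟨l, a, b, p, h1, h2, h3, h4, h5, ?_⟩
    rw [← h6, word_eq_iff]
    intro t ht
    exact (hzz' _ (by omega) (by omega)).symm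
  · intro z hz
    obtain ⟨l, s, rfl⟩ := (D.mem_iff z).1 hz
    have hch : ∀ j : Fin D.m, ∃ P : ℤ, j ∈ D.Jr l → s + ρ ≤ P ∧
        word (D.x l) P D.d = word (D.x j) 0 D.d := by
      intro j
      by_cases hj : j ∈ D.Jr l
      · obtain ⟨P, hP1, hP2⟩ := D.jr_mem l j hj (s + ρ)
        exact ⟨P, fun _ => ⟨hP1, hP2⟩⟩
      · exact ⟨0, fun h => absurd h hj⟩
    choose P hP using hch
    obtain ⟨b0, hb0⟩ : ∃ b0, b0 = Finset.univ.sup fun j => (P j + D.K r + ρ).toNat := ⟨_, rfl⟩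
    obtain ⟨a, ha⟩ : ∃ a, a = (-s).toNat := ⟨_, rfl⟩
    obtain ⟨p, hp⟩ : ∃ p : ℕ, (p : ℤ) = s + a := ⟨(s + a).toNat, by omega⟩
    obtain ⟨b, hb⟩ : ∃ b, b = b0 + s.natAbs + 3 * ρ + 3 * D.K r := ⟨_, rfl⟩
    refine ⟨a + b + p + D.β, fun hzu => ⟨l, a, b, p, by omega, by omega, by omega, ?_, by omega,
      ?_⟩⟩
    · have hTL : D.TL l a b p = word (D.x l) s (a + (b + D.β) - p) := by
        unfold Dat.TL Dat.win
        rw [word_drop _ _ _ _ (by omega)]
        congr 1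
        omega
      refine ⟨?_, by omega, by omega, ?_⟩
      · rw [hTL, word_take _ _ _ _ (by omega)]
        rw [word_tr, zero_add] at hzu
        exact hzu
      · intro j hj
        rw [hTL]
        obtain ⟨hP1, hP2⟩ := hP j hj
        have hle : (P j + D.K r + ρ).toNat ≤ b0 := by
          rw [hb0]
          exact Finset.le_sup (f := fun j => (P j + D.K r + ρ).toNat) (Finset.mem_univ j)
        exact sat_of_core D hg (x_mem D l) hP2 (by omega) (by omega)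
    · unfold Dat.win
      rw [word_tr]
      congr 1
      omega

end Q67.QM
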