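import Pool.Agent.Q67.QM.RL

set_option autoImplicit false

namespace Q67.QM

variable {n : ℕ}

theorem exists_rcomp {X : Set (Pt n)} (hX : IsClosed X) (D : Dat X) (r ρ : ℕ)
    (hg : D.Good r ρ) (v : List (Fin n)) : ∃ R, D.RComp r ρ v R := by
  have hK : D.K r = r + 1 + D.d := rfl
  suffices h0 : ∃ R : ℕ, ∀ z ∈ X, word z 0 r = v → ∃ i : Fin D.m, ∃ a b q : ℕ,
      a ≤ R ∧ b ≤ R ∧ q ≤ R + r ∧ D.RG r ρ v i a b q ∧ (a + D.β) + b ≤ q + R ∧
      word z ((r : ℤ) - q) ((a + D.β) + b) = D.win i (a + D.β) b by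
    obtain ⟨R, hR⟩ := h0
    refine ⟨R, ?_⟩
    rintro W ⟨x, hx, i0, hi⟩ hlen hWu
    rw [hlen] at hi
    obtain ⟨l, a, b, q, h1, h2, h3, h4, h5, h6⟩ := hR (tr (i0 + R) x) (tr_mem D hx _) (by
      rw [word_tr, ← hWu, ← hi, word_drop_take _ _ _ _ _ (by omega)]
      congr 1; ring)
    refine ⟨l, a, b, q, h1, h2, h3, h4, h5, ?_⟩
    rw [← h6, ← hi, word_drop_take _ _ _ _ _ (by omega), word_tr]
    congr 1
    omega
  refine unif hX r (fun z R => word z 0 r = v → ∃ i : Fin D.m, ∃ a b q : ℕ,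
      a ≤ R ∧ b ≤ R ∧ q ≤ R + r ∧ D.RG r ρ v i a b q ∧ (a + D.β) + b ≤ q + R ∧
      word z ((r : ℤ) - q) ((a + D.β) + b) = D.win i (a + D.β) b) ?_ ?_ ?_
  · intro z R R' hRR' h hz
    obtain ⟨l, a, b, q, h1, h2, h3, h4, h5, h6⟩ := h hz
    exact ⟨l, a, b, q, h1.trans hRR', h2.trans hRR', by omega, h4, by omega, h6⟩
  · intro R z z' hzz' h hz
    have e1 : word z 0 r = word z' 0 r := by
      rw [word_eq_iff]
      intro t ht
      exact hzz' _ (by omega) (by omega)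
    obtain ⟨l, a, b, q, h1, h2, h3, h4, h5, h6⟩ := h (e1.trans hz)
    refine ⟨l, a, b, q, h1, h2, h3, h4, h5, ?_⟩
    rw [← h6, word_eq_iff]
    intro t ht
    exact (hzz' _ (by omega) (by omega)).symm
  · intro z hz
    obtain ⟨l, s, rfl⟩ := (D.mem_iff z).1 hz
    have hch : ∀ j : Fin D.m, ∃ P : ℤ, j ∈ D.Jl l → P ≤ s + r - D.K r - ρ ∧
        word (D.x l) P D.d = word (D.x j) 0 D.d := by
      intro j
      by_cases hj : j ∈ D.Jl l
      · obtain ⟨P, hP1, hP2⟩ := D.jl_mem l j hj (s + r - D.K r - ρ)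
        exact ⟨P, fun _ => ⟨hP1, hP2⟩⟩
      · exact ⟨0, fun h => absurd h hj⟩
    choose P hP using hch
    obtain ⟨a0, ha0⟩ : ∃ a0, a0 = Finset.univ.sup fun j => (ρ - P j).toNat := ⟨_, rfl⟩
    obtain ⟨b, hb⟩ : ∃ b, b = (s + r).toNat := ⟨_, rfl⟩
    obtain ⟨a, ha⟩ : ∃ a, a = a0 + s.natAbs + r + 3 * ρ + 3 * D.K r := ⟨_, rfl⟩
    obtain ⟨q, hq⟩ : ∃ q : ℕ, (q : ℤ) = s + r + a + D.β := ⟨(s + r + a + D.β).toNat, by omega⟩
    refine ⟨a + b + q + D.β, fun hzu => ⟨l, a, b, q, by omega, by omega, by omega, ?_, by omega,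
      ?_⟩⟩
    · have hTR : D.TR l a b q = word (D.x l) (-((a + D.β : ℕ) : ℤ)) q := by
        unfold Dat.TR Dat.win
        rw [word_take _ _ _ _ (by omega)]
      refine ⟨?_, by omega, by omega, by omega, ?_⟩
      · rw [hTR, word_drop _ _ _ _ (by omega)]
        rw [word_tr, zero_add] at hzu
        rw [← hzu]
        have e2 : q - (q - r) = r := by omega
        rw [e2]
        congr 1
        push_cast
        omega
      · intro j hj
        rw [hTR]
        obtain ⟨hP1, hP2⟩ := hP j hj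
        have hle : (ρ - P j).toNat ≤ a0 := by
          rw [ha0]
          exact Finset.le_sup (f := fun j => (ρ - P j).toNat) (Finset.mem_univ j)
        exact sat_of_core D hg (x_mem D l) hP2 (by push_cast; omega) (by push_cast; omega)
    · unfold Dat.win
      rw [word_tr]
      congr 1
      push_cast
      omega

end Q67.QM
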