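import Pool.Agent.Q67.QM.RGood
import Pool.Agent.Q67.QM.RL
import Pool.Agent.Q67.QM.RR
import Pool.Agent.Q67.QM.Fwd
import Pool.Agent.Q67.QM.Bwd
import Pool.Agent.Q67.QM.Mono
import Pool.Agent.Q67.QM.Dick
import Pool.Agent.Q67.QM.CL
import Pool.Agent.Q67.QM.CC
import Pool.Agent.Q67.QM.CLong
import Pool.Agent.Q67.QM.CAtom

set_option autoImplicit false

namespace Q67.QM

open Pool.Agent.Helper806

variable {n : ℕ}

theorem link_computable {X : Set (Pt n)} (D : Dat X) (l i : Fin D.m) (E C : Finset (Fin D.m))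
    (hE : Disjoint E (D.Jr l)) (hE' : Disjoint E (D.Jl i)) :
    ComputablePred fun p : ℕ × ℕ × ℕ × ℕ =>
      D.Link l i E C p.1 (p.2.1 + D.β) (p.2.2.1 + D.β) p.2.2.2 :=
  lower_computable (fun a b a' b' => D.Link l i E C a (b + D.β) (a' + D.β) b')
    (fun _ _ _ _ _ _ _ _ h1 h2 h3 h4 h => link_mono D hE hE' h1 h2 h3 h4 h)

theorem exists_atom_computable {X : Set (Pt n)} (hX : IsClosed X)
    (hB : ComputablePred fun w : List (Fin n) => w ∈ Lang X) (D : Dat X) :
    ComputablePred fun s : ℕ × List (Fin n) × List (Fin n) × List (List (Fin n)) =>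
      ∃ w ∈ Lang X, Atom s.1 s.2.1 s.2.2.1 s.2.2.2 w := by
  classical
  have hw : ∀ j, Computable fun p : ℕ × ℕ => D.win j p.1 p.2 := win_computable hX hB D
  have hL : ∀ j, ComputablePred fun w : List (Fin n) => w ∈ D.L j := L_computable hX hB D
  have hLong := long_computable D hL hw (fun l i E C h h' => link_computable D l i E C h h')
  -- the selectors
  obtain ⟨ρ, hρ, hg⟩ := RE.exists_selector (r := fun r ρ : ℕ => D.Good r ρ)
    (good_computable D hB hL).to_re (fun r => exists_good hX D r)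
  have hc1 : Computable fun x : (ℕ × List (Fin n)) × ℕ => ((x.1.1, ρ x.1.1, x.1.2), x.2) := by
    fun_prop
  obtain ⟨R, hRc, hR⟩ := RE.exists_selector
    (r := fun (x : ℕ × List (Fin n)) (R : ℕ) => D.LComp x.1 (ρ x.1) x.2 R)
    (RE.cp_comp (LComp_computable D hB hL hw) hc1).to_re
    (fun x => exists_lcomp hX D x.1 (ρ x.1) (hg x.1) x.2)
  obtain ⟨R', hRc', hR'⟩ := RE.exists_selector
    (r := fun (x : ℕ × List (Fin n)) (R : ℕ) => D.RComp x.1 (ρ x.1) x.2 R)
    (RE.cp_comp (RComp_computable D hB hL hw) hc1).to_re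
    (fun x => exists_rcomp hX D x.1 (ρ x.1) (hg x.1) x.2)
  -- the formula
  have hshort : ComputablePred fun s : ℕ × List (Fin n) × List (Fin n) × List (List (Fin n)) =>
      ∃ k, k < (R (s.1, s.2.1) + s.1) + (R' (s.1, s.2.2.1) + s.1) + 1 ∧
        ∃ w ∈ words n k, w ∈ Lang X ∧ Atom s.1 s.2.1 s.2.2.1 s.2.2.2 w := by
    refine RE.cp_ex_lt
      (p := fun (s : ℕ × List (Fin n) × List (Fin n) × List (List (Fin n))) (k : ℕ) =>
        ∃ w ∈ words n k, w ∈ Lang X ∧ Atom s.1 s.2.1 s.2.2.1 s.2.2.2 w)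
      (f := fun s => (R (s.1, s.2.1) + s.1) + (R' (s.1, s.2.2.1) + s.1) + 1) ?_ (by fun_prop)
    refine RE.cp_ex_mem (p := fun (x : (ℕ × List (Fin n) × List (Fin n) × List (List (Fin n))) × ℕ)
      w => w ∈ Lang X ∧ Atom x.1.1 x.1.2.1 x.1.2.2.1 x.1.2.2.2 w) ?_
      (words_computable.comp Computable.snd)
    refine RE.cp_and (RE.cp_comp hB Computable.snd) ?_
    exact RE.cp_comp atom_computable
      (f := fun x : ((ℕ × List (Fin n) × List (Fin n) × List (List (Fin n))) × ℕ) × List (Fin n) =>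
        (x.1.1, x.2)) (by fun_prop)
  have hlong : ComputablePred fun s : ℕ × List (Fin n) × List (Fin n) × List (List (Fin n)) =>
      D.Long s.1 (ρ s.1) (R (s.1, s.2.1)) (R' (s.1, s.2.2.1)) s.2.1 s.2.2.1 s.2.2.2 := by
    exact RE.cp_comp hLong
      (f := fun s : ℕ × List (Fin n) × List (Fin n) × List (List (Fin n)) =>
        ((s.1, ρ s.1, R (s.1, s.2.1), R' (s.1, s.2.2.1)), s.2.1, s.2.2.1, s.2.2.2))
      (by fun_prop)
  refine (RE.cp_or hshort hlong).of_eq fun s => ?_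
  constructor
  · rintro (⟨k, -, w, -, hw, hA⟩ | h)
    · exact ⟨w, hw, hA⟩
    · exact bwd D (hg s.1) h
  · rintro ⟨w, hw, hA⟩
    by_cases hlen : (R (s.1, s.2.1) + s.1) + (R' (s.1, s.2.2.1) + s.1) ≤ w.length
    · exact Or.inr (fwd D (hg s.1) (hR (s.1, s.2.1)) (hR' (s.1, s.2.2.1)) hw hA hlen)
    · exact Or.inl ⟨w.length, by omega, w, mem_words.2 rfl, hw, hA⟩

end Q67.QM
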