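import Pool.Agent.Q67.QM.CB
import Pool.Agent.Q67.QM.CAtom
import Pool.Agent.Helper806.RD.CP

set_option autoImplicit false

namespace Q67.QM

open Pool.Agent.Helper806

variable {n : ℕ}

/-- JOB FIN2 (file Fin2.lean; imports CB, CAtom).  The set is
`(∃ w ∈ q.2.2, |w| ≤ q.1 ∧ w ∈ Lang X) ∨ ∃ τ ∈ q.2.1, (∃ w ∈ Lang X, Atom ...)`. -/
theorem query_computable {X : Set (Pt n)}
    (hB : ComputablePred fun w : List (Fin n) => w ∈ Lang X)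
    (h : ComputablePred fun s : ℕ × List (Fin n) × List (Fin n) × List (List (Fin n)) =>
      ∃ w ∈ Lang X, Atom s.1 s.2.1 s.2.2.1 s.2.2.2 w) :
    ComputablePred fun q : Query n => ∃ w ∈ Lang X, w ∈ qlang q := by
  have h1 : ComputablePred fun q : Query n => ∃ w ∈ q.2.2, w.length ≤ q.1 ∧ w ∈ Lang X := by
    refine RE.cp_ex_mem (p := fun (q : Query n) w => w.length ≤ q.1 ∧ w ∈ Lang X)
      (RE.cp_and (RE.cp_le ?_ ?_) (RE.cp_comp hB ?_)) ?_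
    all_goals fun_prop
  have h2 : ComputablePred fun q : Query n =>
      ∃ τ ∈ q.2.1, ∃ w ∈ Lang X, Atom q.1 τ.1 τ.2.1 τ.2.2 w := by
    refine RE.cp_ex_mem (p := fun (q : Query n)
      (τ : List (Fin n) × List (Fin n) × List (List (Fin n))) =>
      ∃ w ∈ Lang X, Atom q.1 τ.1 τ.2.1 τ.2.2 w)
      (RE.cp_comp (f := fun x : Query n × (List (Fin n) × List (Fin n) × List (List (Fin n))) =>
        (x.1.1, x.2)) h ?_) ?_
    all_goals fun_prop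
  refine (RE.cp_or h1 h2).of_eq fun q => ⟨?_, ?_⟩
  · rintro (⟨w, hw, hl, hL⟩ | ⟨τ, hτ, w, hL, hA⟩)
    · exact ⟨w, hL, Or.inl ⟨hl, hw⟩⟩
    · exact ⟨w, hL, Or.inr ⟨τ, hτ, hA⟩⟩
  · rintro ⟨w, hL, (⟨hl, hw⟩ | ⟨τ, hτ, hA⟩)⟩
    · exact Or.inl ⟨w, hw, hl, hL⟩
    · exact Or.inr ⟨τ, hτ, w, hL, hA⟩

end Q67.QM
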