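import Pool.Agent.Q67.QM.Defs
import Pool.Agent.Q67.QM.CB

set_option autoImplicit false

namespace Q67.QM

variable {n : ℕ}

/-- JOB LT (file LT.lean).  (⇐) `k = q.1 + 1`: for words of length `≥ k` membership in `qlang q` is
decided by the triples.  (⇒) `r = k - 1`; short words: all `w ∈ Λ` with `|w| ≤ r`; triples: all
triples (prefix, suffix, duplicate free list of factors of length `r+1`) that come from some
`w ∈ Λ` of length `≥ k`; they are finitely many (finitely many words of length `r`; the list of
factors can be taken as a filtered `words n (r+1)`, i.e. a sublist of it). -/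
theorem locallyTestable_iff (Λ : Set (List (Fin n))) :
    IsLocallyTestable Λ ↔ ∃ q : Query n, qlang q = Λ := by
  classical
  constructor
  · rintro ⟨k, hk1, hk⟩
    obtain ⟨r, rfl⟩ := Nat.exists_eq_add_of_le hk1
    have hr : 1 + r - 1 = r := by omega
    rw [hr] at hk
    refine ⟨(r, (words n r).flatMap fun u => (words n r).flatMap fun v =>
      ((words n (r + 1)).sublists.filter fun F => decide (∃ w ∈ Λ, Atom r u v F w)).map
        fun F => (u, v, F),
      ((List.range (r + 1)).flatMap fun l => words n l).filter fun w => decide (w ∈ Λ)), ?_⟩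
    ext w
    simp only [qlang, Set.mem_ofPred_eq]
    constructor
    · rintro (⟨h1, h2⟩ | ⟨τ, hτ, hA⟩)
      · rw [List.mem_filter] at h2
        simpa using h2.2
      · rw [List.mem_flatMap] at hτ
        obtain ⟨u, -, hτ⟩ := hτ
        rw [List.mem_flatMap] at hτ
        obtain ⟨v, -, hτ⟩ := hτ
        rw [List.mem_map] at hτ
        obtain ⟨F, hF, rfl⟩ := hτ
        rw [List.mem_filter, decide_eq_true_eq] at hF
        obtain ⟨-, w', hw', hA'⟩ := hF
        obtain ⟨a1, a2, a3, a4⟩ := hA
        obtain ⟨b1, b2, b3, b4⟩ := hA'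
        dsimp only at a1 a2 a3 a4
        refine (hk w w' (by omega) (by omega) (by rw [a2, b2]) (by rw [a3, b3]) ?_).2 hw'
        intro e he
        have ha := a4 e
        have hb := b4 e
        constructor
        · intro hi
          exact (hb.1 (ha.2 ⟨by omega, hi⟩)).2
        · intro hi
          exact (ha.1 (hb.2 ⟨by omega, hi⟩)).2
    · intro hw
      by_cases hl : w.length ≤ r
      · left
        refine ⟨hl, ?_⟩
        rw [List.mem_filter, List.mem_flatMap]
        exact ⟨⟨w.length, List.mem_range.2 (by omega), mem_words.2 rfl⟩, by simpa using hw⟩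
      · right
        refine ⟨(w.take r, w.drop (w.length - r),
          (words n (r + 1)).filter fun e => decide (e <:+: w)), ?_, ?_⟩
        · rw [List.mem_flatMap]
          refine ⟨w.take r, mem_words.2 (by rw [List.length_take]; omega), ?_⟩
          rw [List.mem_flatMap]
          refine ⟨w.drop (w.length - r), mem_words.2 (by rw [List.length_drop]; omega), ?_⟩
          rw [List.mem_map]
          refine ⟨_, ?_, rfl⟩
          rw [List.mem_filter, List.mem_sublists, decide_eq_true_eq]
          refine ⟨List.filter_sublist, w, hw, ?_⟩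
          refine ⟨by omega, rfl, rfl, ?_⟩
          intro e
          rw [List.mem_filter, mem_words, decide_eq_true_eq]
        · refine ⟨by omega, rfl, rfl, ?_⟩
          intro e
          dsimp only
          rw [List.mem_filter, mem_words, decide_eq_true_eq]
  · rintro ⟨q, rfl⟩
    refine ⟨q.1 + 1, by omega, ?_⟩
    have key : ∀ w w' : List (Fin n), q.1 + 1 ≤ w.length → q.1 + 1 ≤ w'.length →
        w.take q.1 = w'.take q.1 →
        w.drop (w.length - q.1) = w'.drop (w'.length - q.1) →
        (∀ e : List (Fin n), e.length = q.1 + 1 → (e <:+: w ↔ e <:+: w')) →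
        w ∈ qlang q → w' ∈ qlang q := by
      intro w w' h1 h2 h3 h4 h5 hw
      rcases hw with ⟨ha, -⟩ | ⟨τ, hτ, a1, a2, a3, a4⟩
      · exfalso
        omega
      · refine Or.inr ⟨τ, hτ, h2, by rw [← h3, a2], by rw [← h4, a3], ?_⟩
        intro e
        rw [a4 e]
        constructor
        · rintro ⟨b1, b2⟩
          exact ⟨b1, (h5 e b1).1 b2⟩
        · rintro ⟨b1, b2⟩
          exact ⟨b1, (h5 e b1).2 b2⟩
    intro w w' h1 h2 h3 h4 h5
    rw [Nat.add_sub_cancel] at h3 h4
    exact ⟨key w w' h1 h2 h3 h4 h5,
      key w' w h2 h1 h3.symm h4.symm (fun e he => (h5 e he).symm)⟩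

end Q67.QM
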