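import Pool.Agent.Q67.QM.W

set_option autoImplicit false

namespace Q67.QM

variable {n : ℕ}

namespace MkDatAux

/-- a bound for finitely many numbers -/
theorem bound2 {m : ℕ} (P : Fin m → Fin m → ℕ → Prop)
    (h : ∀ i j, ∃ N : ℕ, ∀ M : ℕ, N ≤ M → P i j M) : ∃ B : ℕ, ∀ i j, ∀ M : ℕ, B ≤ M → P i j M := by
  choose N hN using h
  obtain ⟨B, hB⟩ := Finite.exists_le (fun q : Fin m × Fin m => N q.1 q.2)
  exact ⟨B, fun i j M hM => hN i j M ((hB (i, j)).trans hM)⟩

theorem tr_tr (s t : ℤ) (x : Pt n) : tr s (tr t x) = tr (s + t) x := by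
  funext i
  simp only [tr]
  congr 1
  ring

theorem tr_zero (x : Pt n) : tr 0 x = x := by
  funext i
  simp [tr]

/-- the block on `[-H, H]` decides the inclusion of the languages -/
theorem block (x y : Pt n) : ∃ N : ℕ, ∀ H : ℕ, N ≤ H →
    (word y (-(H : ℤ)) (2 * H + 1) ∈ PLang x → PLang y ⊆ PLang x) := by
  by_cases hs : PLang y ⊆ PLang x
  · exact ⟨0, fun _ _ _ => hs⟩
  · obtain ⟨w, ⟨q, hq⟩, hwx⟩ := Set.not_subset.1 hs
    refine ⟨q.natAbs + w.length, fun H hH hmem => absurd ?_ hwx⟩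
    refine PLang_infix hmem ?_
    rw [infix_word]
    have h1 : (0 : ℤ) ≤ q + H := by omega
    refine ⟨(q + H).toNat, ?_, ?_⟩
    · zify
      rw [Int.toNat_of_nonneg h1]
      omega
    · rw [Int.toNat_of_nonneg h1]
      have e : -(H : ℤ) + (q + H) = q := by ring
      rw [e]
      exact hq

end MkDatAux

open MkDatAux in
/-- JOB TOP4 (file MkDat.lean; imports W.lean). Choose `H` larger than all `h j` and such that for
all `i j` with `¬ PLang (x j) ⊆ PLang (x i)` some word of `PLang (x j) \ PLang (x i)` occurs in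
`x j` inside `[-H, H]`.  Put `x' j = tr (-H) (x j)` and `d = 2 * H + 1`; then
`word (x' j) 0 d = word (x j) (-H) (2H+1)` is the block of `x j` on `[-H, H]`.  `core_sub`: if the
core of `x j` is in `PLang (x i)` then all its factors are, so `PLang (x j) ⊆ PLang (x i)`. `iso`:
clear from the choice of `H ≥ h j` (translate by `H`).  `Jr l` = the (classical) Finset of the `j`
such that for every `N` some `p ≥ N` has `word (x' l) p d = core j`; for the other `j` there is a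
bound `N_(l,j)`; `Jl` similarly; `B` = a natural number above all these finitely many bounds. -/
theorem exists_dat {X : Set (Pt n)} (m : ℕ) (x : Fin m → Pt n)
    (h1 : ∀ z, z ∈ X ↔ ∃ j, ∃ s : ℤ, z = tr s (x j))
    (h2 : ∀ j, ∃ h : ℕ, ∀ z ∈ X, PLang z ⊆ PLang (x j) →
        (∀ i : ℤ, -(h : ℤ) ≤ i → i ≤ h → z i = x j i) → z = x j) : Nonempty (Dat X) := by
  classical
  choose h hh using h2
  obtain ⟨H1, hH1⟩ := Finite.exists_le h
  obtain ⟨H2, hH2⟩ := bound2 (fun i j H => word (x j) (-(H : ℤ)) (2 * H + 1) ∈ PLang (x i) →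
    PLang (x j) ⊆ PLang (x i)) fun i j => block (x i) (x j)
  obtain ⟨H, hHd⟩ : ∃ H : ℕ, H = max H1 H2 := ⟨_, rfl⟩
  have hHh : ∀ j, h j ≤ H := fun j => (hH1 j).trans (by rw [hHd]; exact le_max_left _ _)
  have hHb : ∀ i j, word (x j) (-(H : ℤ)) (2 * H + 1) ∈ PLang (x i) → PLang (x j) ⊆ PLang (x i) :=
    fun i j => hH2 i j H (by rw [hHd]; exact le_max_right _ _)
  obtain ⟨y, hy⟩ : ∃ y : Fin m → Pt n, y = fun j => tr (-(H : ℤ)) (x j) := ⟨_, rfl⟩
  obtain ⟨d, hd⟩ : ∃ d : ℕ, d = 2 * H + 1 := ⟨_, rfl⟩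
  have hPL : ∀ j, PLang (y j) = PLang (x j) := fun j => by rw [hy]; exact PLang_tr _ _
  have hcore : ∀ j, word (y j) 0 d = word (x j) (-(H : ℤ)) (2 * H + 1) := fun j => by
    rw [hy, hd]
    show word (tr (-(H : ℤ)) (x j)) 0 (2 * H + 1) = _
    rw [word_tr, zero_add]
  have hmem : ∀ z, z ∈ X ↔ ∃ j, ∃ s : ℤ, z = tr s (y j) := by
    intro z
    rw [h1 z]
    constructor
    · rintro ⟨j, s, rfl⟩
      refine ⟨j, s + H, ?_⟩
      rw [hy]
      show tr s (x j) = tr (s + H) (tr (-(H : ℤ)) (x j))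
      rw [tr_tr]
      congr 1
      ring
    · rintro ⟨j, s, rfl⟩
      refine ⟨j, s + -(H : ℤ), ?_⟩
      rw [hy]
      exact tr_tr _ _ _
  have hiso : ∀ j, ∀ z ∈ X, PLang z ⊆ PLang (y j) → word z 0 d = word (y j) 0 d → z = y j := by
    intro j z hz hsub hw
    have hz' : tr (H : ℤ) z ∈ X := by
      obtain ⟨j', s, rfl⟩ := (h1 z).1 hz
      exact (h1 _).2 ⟨j', H + s, tr_tr _ _ _⟩
    have h3 := hh j (tr (H : ℤ) z) hz' (by rw [PLang_tr, ← hPL j]; exact hsub) (by
      intro i hi1 hi2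
      have h4 := (word_eq_iff z (y j) 0 0 d).1 hw (i + H).toNat
      have h5 := hHh j
      have h6 : (0 : ℤ) ≤ i + H := by omega
      have h7 : (i + H).toNat < d := by
        zify
        rw [Int.toNat_of_nonneg h6, hd]
        push_cast
        omega
      have h8 := h4 h7
      rw [Int.toNat_of_nonneg h6, zero_add] at h8
      show z (i + H) = x j i
      rw [h8, hy]
      show x j (i + H + -(H : ℤ)) = x j i
      congr 1
      ring)
    rw [hy]
    show z = tr (-(H : ℤ)) (x j)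
    rw [← h3, tr_tr, neg_add_cancel, tr_zero]
  obtain ⟨Jr, hJr⟩ : ∃ Jr : Fin m → Finset (Fin m), ∀ l j, j ∈ Jr l ↔
      ∀ N : ℤ, ∃ p : ℤ, N ≤ p ∧ word (y l) p d = word (y j) 0 d :=
    ⟨fun l => Finset.univ.filter fun j => ∀ N : ℤ, ∃ p : ℤ, N ≤ p ∧ word (y l) p d = word (y j) 0 d,
      fun l j => by simp⟩
  obtain ⟨Jl, hJl⟩ : ∃ Jl : Fin m → Finset (Fin m), ∀ l j, j ∈ Jl l ↔
      ∀ N : ℤ, ∃ p : ℤ, p ≤ N ∧ word (y l) p d = word (y j) 0 d :=
    ⟨fun l => Finset.univ.filter fun j => ∀ N : ℤ, ∃ p : ℤ, p ≤ N ∧ word (y l) p d = word (y j) 0 d,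
      fun l j => by simp⟩
  obtain ⟨B1, hB1⟩ := bound2 (fun l j B => j ∉ Jr l → ∀ p : ℤ, (B : ℤ) ≤ p →
    word (y l) p d ≠ word (y j) 0 d) (by
      intro l j
      by_cases hj : j ∈ Jr l
      · exact ⟨0, fun _ _ h' => absurd hj h'⟩
      · have h3 := hj
        rw [hJr] at h3
        push Not at h3
        obtain ⟨N, hN⟩ := h3
        exact ⟨N.toNat, fun M hM _ p hp => hN p (by omega)⟩)
  obtain ⟨B2, hB2⟩ := bound2 (fun l j B => j ∉ Jl l → ∀ p : ℤ, p + d ≤ -(B : ℤ) →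
    word (y l) p d ≠ word (y j) 0 d) (by
      intro l j
      by_cases hj : j ∈ Jl l
      · exact ⟨0, fun _ _ h' => absurd hj h'⟩
      · have h3 := hj
        rw [hJl] at h3
        push Not at h3
        obtain ⟨N, hN⟩ := h3
        exact ⟨(-N).toNat, fun M hM _ p hp => hN p (by omega)⟩)
  exact ⟨{
    m := m
    x := y
    d := d
    B := max B1 B2
    Jr := Jr
    Jl := Jl
    dpos := by rw [hd]; omega
    mem_iff := hmem
    core_sub := fun i j hc => by
      rw [hPL i, hcore j] at hc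
      rw [hPL i, hPL j]
      exact hHb i j hc
    iso := hiso
    jr_mem := fun l j hj => (hJr l j).1 hj
    jr_not := fun l j hj => hB1 l j _ (le_max_left _ _) hj
    jl_mem := fun l j hj => (hJl l j).1 hj
    jl_not := fun l j hj => hB2 l j _ (le_max_right _ _) hj }⟩

end Q67.QM
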