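import Pool.Agent.Q67.QM.Orb
import Pool.Agent.Q67.QM.MkDat
import Pool.Agent.Q67.QM.Fin1
import Pool.Agent.Q67.QM.Fin2
import Pool.Agent.Q67.QM.LT
import Pool.Agent.Q67.QM.Aut3

set_option autoImplicit false

namespace Q67.QM

theorem final (n : ℕ) (X : Set (Pt n)) (hX : IsSubshift X) (hc : X.Countable)
    (hf : {Y : Set (Pt n) | IsSubshift Y ∧ Y ⊆ X}.Finite)
    (hB : ComputablePred fun w : List (Fin n) => w ∈ Lang X) :
    (∃ f : Auto n →. Bool, Partrec f ∧ ∀ A : Auto n, IsLocallyTestable A.lang →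
      ∃ b, b ∈ f A ∧ (b = true ↔ ∃ w ∈ Lang X, w ∈ A.lang)) ∧
    (ComputablePred fun q : Query n => ∃ w ∈ Lang X, w ∈ qlang q) ∧
    ∀ Λ : Set (List (Fin n)), IsLocallyTestable Λ ↔ ∃ q : Query n, qlang q = Λ := by
  obtain ⟨m, x, h1, h2⟩ := exists_orbits hX hc hf
  obtain ⟨D⟩ := exists_dat m x h1 h2
  have hq := query_computable hB (exists_atom_computable hX.1 hB D)
  exact ⟨auto_decidable hq, hq, fun Λ => locallyTestable_iff Λ⟩

end Q67.QM
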