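import Pool.Agent.Q67.QM.Defs

set_option autoImplicit false

namespace Q67.QM

variable {n : ℕ}

/-- JOB TOP2 (file Iso.lean). `Y` is compact Hausdorff, hence a Baire space, nonempty and countable:
`Y` is a countable union of closed singletons, so some singleton `{z}` has nonempty interior in
`Y`, i.e. is open in `Y`: some basic cylinder around `z` meets `Y` only in `z`. -/
theorem exists_isolated {Y : Set (Pt n)} (hY : IsClosed Y) (hc : Y.Countable)
    (hne : Y.Nonempty) :
    ∃ z ∈ Y, ∃ h : ℕ, ∀ z' ∈ Y, (∀ i : ℤ, -(h : ℤ) ≤ i → i ≤ h → z' i = z i) → z' = z := by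
  have hcomp : CompactSpace Y := isCompact_iff_compactSpace.1 hY.isCompact
  have hcount : Countable Y := hc.to_subtype
  have hnon : Nonempty Y := hne.to_subtype
  obtain ⟨z, hz⟩ := nonempty_interior_of_iUnion_of_closed (f := fun z : Y => ({z} : Set Y))
    (fun _ => isClosed_singleton) (Set.iUnion_of_singleton Y)
  have h1 : interior ({z} : Set Y) = {z} := by
    obtain ⟨y, hy⟩ := hz
    have h5 : y ∈ ({z} : Set Y) := interior_subset hy
    have h2 : y = z := h5
    refine Set.Subset.antisymm interior_subset ?_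
    rintro _ rfl
    exact h2 ▸ hy
  have h3 : IsOpen ({z} : Set Y) := by rw [← h1]; exact isOpen_interior
  obtain ⟨U, hU, hUz⟩ := isOpen_induced_iff.1 h3
  have hzU : z.1 ∈ U := by
    have : z ∈ (Subtype.val ⁻¹' U : Set Y) := by rw [hUz]; rfl
    exact this
  obtain ⟨I, u, hu, hsub⟩ := isOpen_pi_iff.1 hU z.1 hzU
  refine ⟨z.1, z.2, I.sup Int.natAbs, fun z' hz' h => ?_⟩
  have h4 : z' ∈ U := by
    apply hsub
    intro i hi
    have h5 : i.natAbs ≤ I.sup Int.natAbs := Finset.le_sup (f := Int.natAbs) hi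
    rw [h i (by omega) (by omega)]
    exact (hu i hi).2
  have h6 : (⟨z', hz'⟩ : Y) ∈ ({z} : Set Y) := by
    rw [← hUz]; exact h4
  exact congrArg Subtype.val h6

end Q67.QM
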