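import Pool.Agent.Q67.QM.W
import Pool.Agent.Q67.QM.Iso

set_option autoImplicit false

namespace Q67.QM

variable {n : ℕ}

namespace OrbAux

/-- the points of `X` all of whose words are words of `x` -/
def YY (X : Set (Pt n)) (x : Pt n) : Set (Pt n) := {z | z ∈ X ∧ PLang z ⊆ PLang x}

theorem tr_zero (x : Pt n) : tr 0 x = x := by
  funext i
  simp [tr]

theorem tr_tr (s t : ℤ) (x : Pt n) : tr s (tr t x) = tr (s + t) x := by
  funext i
  simp only [tr]
  congr 1
  ring

theorem shift_eq (x : Pt n) : shift x = tr 1 x := rfl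

theorem tr_inj {s : ℤ} {x y : Pt n} (h : tr s x = tr s y) : x = y := by
  have h1 := congrArg (tr (-s)) h
  rw [tr_tr, tr_tr, neg_add_cancel, tr_zero, tr_zero] at h1
  exact h1

theorem tr_memX {X : Set (Pt n)} (hX : shift '' X = X) (s : ℤ) {z : Pt n} (hz : z ∈ X) :
    tr s z ∈ X := by
  induction s using Int.induction_on with
  | zero => rw [tr_zero]; exact hz
  | succ k ih =>
    have h1 : tr ((k : ℤ) + 1) z = shift (tr k z) := by
      rw [shift_eq, tr_tr, add_comm]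
    rw [h1, ← hX]
    exact ⟨_, ih, rfl⟩
  | pred k ih =>
    rw [← hX] at ih
    obtain ⟨z', hz', h1⟩ := ih
    have h2 : tr (-(k : ℤ) - 1) z = z' := by
      have h3 : tr (-(k : ℤ) - 1) z = tr (-1) (tr (-(k : ℤ)) z) := by
        rw [tr_tr]
        congr 1
        ring
      rw [h3, ← h1, shift_eq, tr_tr]
      exact tr_zero _
    rw [h2]
    exact hz'

theorem open_cyl (z : Pt n) (i : ℤ) (k : ℕ) : IsOpen {z' : Pt n | word z' i k = word z i k} := by
  have h : {z' : Pt n | word z' i k = word z i k} =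
      ⋂ t ∈ Finset.range k, {z' : Pt n | z' (i + t) = z (i + t)} := by
    ext z'
    simp only [Set.mem_ofPred_eq, word_eq_iff, Set.mem_iInter, Finset.mem_range]
  rw [h]
  refine isOpen_biInter_finset fun t _ => ?_
  have h2 : {z' : Pt n | z' (i + t) = z (i + t)} =
      (fun z' : Pt n => z' (i + t)) ⁻¹' {z (i + t)} := rfl
  rw [h2]
  exact (isOpen_discrete _).preimage (continuous_apply _)

theorem closed_YY {X : Set (Pt n)} (hX : IsClosed X) (x : Pt n) : IsClosed (YY X x) := by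
  have h : YY X x = X ∩ {z | PLang z ⊆ PLang x} := rfl
  rw [h]
  refine hX.inter ?_
  rw [← isOpen_compl_iff, isOpen_iff_forall_mem_open]
  intro z hz
  have hz' : ¬ PLang z ⊆ PLang x := hz
  rw [Set.not_subset] at hz'
  obtain ⟨w, ⟨i, hi⟩, hwx⟩ := hz'
  refine ⟨{z' : Pt n | word z' i w.length = word z i w.length}, ?_, open_cyl z i w.length, rfl⟩
  intro z' h1 h2
  apply hwx
  apply h2
  exact ⟨i, by rw [← hi]; rw [hi]; exact h1.trans hi⟩

theorem sub_YY {X : Set (Pt n)} (hX : IsSubshift X) (x : Pt n) : IsSubshift (YY X x) := by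
  refine ⟨closed_YY hX.1 x, ?_⟩
  ext z
  constructor
  · rintro ⟨z', ⟨h1, h2⟩, rfl⟩
    refine ⟨?_, ?_⟩
    · rw [← hX.2]
      exact ⟨z', h1, rfl⟩
    · rw [shift_eq, PLang_tr]
      exact h2
  · rintro ⟨h1, h2⟩
    rw [← hX.2] at h1
    obtain ⟨z', h3, rfl⟩ := h1
    rw [shift_eq, PLang_tr] at h2
    exact ⟨z', ⟨h3, h2⟩, rfl⟩

/-- a translate with a given central block -/
theorem exists_tr {x z : Pt n} (h : ℕ) (hw : word z (-(h : ℤ)) (2 * h + 1) ∈ PLang x) :
    ∃ s : ℤ, ∀ i : ℤ, -(h : ℤ) ≤ i → i ≤ h → tr s x i = z i := by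
  obtain ⟨i0, hi0⟩ := hw
  rw [word_length, word_eq_iff] at hi0
  refine ⟨i0 + h, fun i h1 h2 => ?_⟩
  have h3 := hi0 (i + h).toNat (by omega)
  have h4 : (((i + h).toNat : ℕ) : ℤ) = i + h := Int.toNat_of_nonneg (by omega)
  rw [h4] at h3
  have h5 : -(h : ℤ) + (i + h) = i := by ring
  rw [h5] at h3
  rw [← h3]
  simp only [tr]
  congr 1
  ring

theorem isolated {X : Set (Pt n)} (hX : IsSubshift X) (hc : X.Countable) {x : Pt n}
    (hx : x ∈ X) : ∃ h : ℕ, ∀ z ∈ X, PLang z ⊆ PLang x →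
      (∀ i : ℤ, -(h : ℤ) ≤ i → i ≤ h → z i = x i) → z = x := by
  have hYc : (YY X x).Countable := hc.mono fun z hz => hz.1
  obtain ⟨z, ⟨hz1, hz2⟩, h, hh⟩ := exists_isolated (closed_YY hX.1 x) hYc ⟨x, hx, le_rfl⟩
  obtain ⟨s, hs⟩ := exists_tr (x := x) (z := z) h (hz2 (word_mem_PLang z _ _))
  have h1 : tr s x = z := hh _ ⟨tr_memX hX.2 s hx, by rw [PLang_tr]⟩ hs
  refine ⟨h + s.natAbs, fun z' hz' hP hag => ?_⟩
  have h2 : tr s z' = z := by
    refine hh _ ⟨tr_memX hX.2 s hz', by rw [PLang_tr]; exact hP⟩ fun i h3 h4 => ?_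
    rw [← h1]
    simp only [tr]
    refine hag _ ?_ ?_
    · omega
    · omega
  exact tr_inj (h2.trans h1.symm)

theorem same_orbit {X : Set (Pt n)} (hX : IsSubshift X) (hc : X.Countable) {x y : Pt n}
    (hx : x ∈ X) (hy : y ∈ X) (h : YY X x = YY X y) : ∃ s : ℤ, x = tr s y := by
  obtain ⟨r, hr⟩ := isolated hX hc hx
  have h1 : x ∈ YY X y := by
    rw [← h]
    exact ⟨hx, le_rfl⟩
  obtain ⟨s, hs⟩ := exists_tr (x := y) (z := x) r (h1.2 (word_mem_PLang x _ _))
  have h2 : tr s y ∈ YY X x := by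
    rw [h]
    exact ⟨tr_memX hX.2 s hy, by rw [PLang_tr]⟩
  exact ⟨s, (hr _ h2.1 h2.2 hs).symm⟩

end OrbAux

open OrbAux in
/-- JOB TOP3 (file Orb.lean; imports W.lean, Iso.lean). For `x ∈ X` put
`Y x = {z ∈ X | PLang z ⊆ PLang x}`: closed (if every block of `z` is a block of some `z' ∈ Y x`
agreeing with `z` on a long interval, then it lies in `PLang x`), invariant under the shift and its
inverse, so `IsSubshift (Y x)`, contained in `X`, contains `x`, countable.  By `exists_isolated`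
there are `z ∈ Y x` and `h` with: a point of `Y x` that agrees with `z` on `[-h, h]` is `z`.  The
block of `z` on `[-h, h]` is in `PLang x`, so some translate of `x` (which is in `Y x`) agrees with
`z` on `[-h, h]`, hence equals `z`.  So `x` itself is isolated in `Y x` (radius `h + |s|`).
If `Y x = Y y` then (`x` isolated in `Y x`, radius `h`; the block of `x` on `[-h,h]` is in
`PLang x ⊆ PLang y` as `x ∈ Y y`; so a translate of `y` agrees with `x` on `[-h,h]`; it is in
`Y y = Y x`, so it equals `x`) `x` is a translate of `y`.  The set of the `Y x` is finite (`hf`);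
choose one `x` for each of its elements and enumerate by `Fin m`. -/
theorem exists_orbits {X : Set (Pt n)} (hX : IsSubshift X) (hc : X.Countable)
    (hf : {Y : Set (Pt n) | IsSubshift Y ∧ Y ⊆ X}.Finite) :
    ∃ (m : ℕ) (x : Fin m → Pt n), (∀ z, z ∈ X ↔ ∃ j, ∃ s : ℤ, z = tr s (x j)) ∧
      ∀ j, ∃ h : ℕ, ∀ z ∈ X, PLang z ⊆ PLang (x j) →
        (∀ i : ℤ, -(h : ℤ) ≤ i → i ≤ h → z i = x j i) → z = x j := by
  classical
  have hfin : (YY X '' X).Finite := by
    refine hf.subset ?_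
    rintro _ ⟨x, _, rfl⟩
    exact ⟨sub_YY hX x, fun z hz => hz.1⟩
  have : Finite (YY X '' X) := hfin.to_subtype
  obtain ⟨m, ⟨e⟩⟩ := Finite.exists_equiv_fin (YY X '' X)
  let x : Fin m → Pt n := fun j => Classical.choose (e.symm j).2
  have hx : ∀ j, x j ∈ X ∧ YY X (x j) = (e.symm j).1 := fun j =>
    Classical.choose_spec (e.symm j).2
  refine ⟨m, x, fun z => ⟨fun hz => ?_, ?_⟩, fun j => isolated hX hc (hx j).1⟩
  · have h1 : YY X z ∈ YY X '' X := ⟨z, hz, rfl⟩
    refine ⟨e ⟨_, h1⟩, ?_⟩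
    have h2 := (hx (e ⟨_, h1⟩)).2
    rw [Equiv.symm_apply_apply] at h2
    exact same_orbit hX hc hz (hx _).1 h2.symm
  · rintro ⟨j, s, rfl⟩
    exact tr_memX hX.2 s (hx j).1

end Q67.QM
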