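import Pool.Agent.Q67.QM.W
import Pool.Agent.Q67.QM.Unif
import Pool.Agent.Q67.QM.Coord

set_option autoImplicit false

namespace Q67.QM

variable {n : ℕ}

/-- Words of a point occur in a large central block of it, uniformly for words of bounded
length. -/
theorem exists_central (x : Pt n) (N : ℕ) :
    ∃ H : ℕ, ∀ w ∈ PLang x, w.length ≤ N → w <:+: word x (-(H : ℤ)) (H + H) := by
  classical
  have hfin : {w : List (Fin n) | w.length ≤ N}.Finite := List.finite_length_le (Fin n) N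
  have h : ∀ w : List (Fin n), ∃ H : ℕ, ∀ H' ≥ H, w ∈ PLang x →
      w <:+: word x (-(H' : ℤ)) (H' + H') := by
    intro w
    by_cases hw : w ∈ PLang x
    · obtain ⟨i, hi⟩ := hw
      refine ⟨i.natAbs + w.length, fun H' hH' _ => ?_⟩
      rw [← hi]
      exact block_infix x (by omega) (by push_cast; omega)
    · exact ⟨0, fun _ _ h => absurd h hw⟩
  choose H hH using h
  obtain ⟨M, hM⟩ := (hfin.image H).bddAbove
  refine ⟨M, fun w hw hl => hH w M (hM ⟨w, hl, rfl⟩) hw⟩

theorem exists_good {X : Set (Pt n)} (hX : IsClosed X) (D : Dat X) (r : ℕ) :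
    ∃ ρ, D.Good r ρ := by
  suffices h0 : ∃ R : ℕ, ∀ z ∈ X, ∃ j, word z 0 (D.K r) ∈ D.L j ∧
      D.core j <:+: word z (-(R : ℤ)) (R + D.K r + R) ∧
      D.Sat r j (word z (-(R : ℤ)) (R + D.K r + R)) by
    obtain ⟨ρ, hρ⟩ := h0
    refine ⟨ρ, ?_⟩
    rintro W ⟨x, hx, i, hi⟩ hlen
    obtain ⟨j, h1, h2, h3⟩ := hρ (tr (i + ρ) x) (tr_mem D hx _)
    rw [hlen] at hi
    have e1 : word (tr (i + ρ) x) (-(ρ : ℤ)) (ρ + D.K r + ρ) = W := by
      rw [word_tr, ← hi]; congr 1; ring
    rw [e1] at h2 h3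
    refine ⟨j, ?_, h2, h3⟩
    rw [← hi, word_drop_take _ _ _ _ _ (by omega)]
    rw [word_tr, zero_add] at h1
    exact h1
  refine unif hX (D.K r)
    (fun z R => ∃ j, word z 0 (D.K r) ∈ D.L j ∧
      D.core j <:+: word z (-(R : ℤ)) (R + D.K r + R) ∧
      D.Sat r j (word z (-(R : ℤ)) (R + D.K r + R))) ?_ ?_ ?_
  · rintro z R R' hRR' ⟨j, h1, h2, h3⟩
    have h4 : word z (-(R : ℤ)) (R + D.K r + R) <:+: word z (-(R' : ℤ)) (R' + D.K r + R') :=
      block_infix z (by omega) (by push_cast; omega)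
    exact ⟨j, h1, h2.trans h4, fun e he hej => (h3 e he hej).trans h4⟩
  · rintro R z z' hzz' ⟨j, h1, h2, h3⟩
    have e1 : word z 0 (D.K r) = word z' 0 (D.K r) := by
      rw [word_eq_iff]
      intro t ht
      exact hzz' _ (by omega) (by omega)
    have e2 : word z (-(R : ℤ)) (R + D.K r + R) = word z' (-(R : ℤ)) (R + D.K r + R) := by
      rw [word_eq_iff]
      intro t ht
      exact hzz' _ (by omega) (by omega)
    rw [e1] at h1
    rw [e2] at h2 h3
    exact ⟨j, h1, h2, h3⟩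
  · intro z hz
    obtain ⟨j, s, rfl⟩ := (D.mem_iff z).1 hz
    obtain ⟨H, hH⟩ := exists_central (tr s (D.x j)) (r + 1 + D.d)
    have hsub : word (tr s (D.x j)) (-(H : ℤ)) (H + H) <:+:
        word (tr s (D.x j)) (-(H : ℤ)) (H + D.K r + H) :=
      block_infix _ le_rfl (by push_cast; omega)
    refine ⟨H, j, ?_, ?_, ?_⟩
    · show _ ∈ PLang (D.x j)
      rw [word_tr]
      exact word_mem_PLang _ _ _
    · refine (hH (D.core j) ?_ ?_).trans hsub
      · rw [PLang_tr]; exact word_mem_PLang _ _ _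
      · have : (D.core j).length = D.d := word_length _ _ _
        omega
    · intro e he hej
      refine (hH e ?_ (by omega)).trans hsub
      rw [PLang_tr]; exact hej

end Q67.QM
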