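import Pool.Agent.Q67.QM.Defs

set_option autoImplicit false

namespace Q67.QM

variable {n : ℕ}

namespace WAux

theorem word_eq (x : Pt n) (i : ℤ) (k : ℕ) :
    word x i k = (List.range k).map fun j : ℕ => x (i + (j : ℤ)) := by
  have h : ∀ l : List ℕ, (do let a ← l; pure (a : ℤ) : List ℤ) = l.map fun a : ℕ => (a : ℤ) := by
    intro l
    induction l with
    | nil => rfl
    | cons a l ih =>
      rw [List.map_cons, ← ih]
      rfl
  unfold word
  rw [h, List.map_map]
  rfl

end WAux

theorem word_length (x : Pt n) (i : ℤ) (k : ℕ) : (word x i k).length = k := by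
  rw [WAux.word_eq, List.length_map, List.length_range]

namespace WAux

theorem getElem_word (x : Pt n) (i : ℤ) (k t : ℕ) (h : t < (word x i k).length) :
    (word x i k)[t] = x (i + t) := by
  simp [word_eq]

end WAux

theorem word_tr (s : ℤ) (x : Pt n) (i : ℤ) (k : ℕ) : word (tr s x) i k = word x (i + s) k := by
  rw [WAux.word_eq, WAux.word_eq]
  unfold tr
  apply List.map_congr_left
  intro j _
  congr 1
  ring

theorem word_eq_iff (x y : Pt n) (i j : ℤ) (k : ℕ) :
    word x i k = word y j k ↔ ∀ t : ℕ, t < k → x (i + t) = y (j + t) := by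
  constructor
  · intro h t ht
    have h1 := WAux.getElem_word x i k t (by rw [word_length]; exact ht)
    have h2 := WAux.getElem_word y j k t (by rw [word_length]; exact ht)
    rw [← h1, ← h2]
    simp only [h]
  · intro h
    rw [WAux.word_eq, WAux.word_eq]
    apply List.map_congr_left
    intro t ht
    exact h t (List.mem_range.1 ht)

theorem word_add (x : Pt n) (i : ℤ) (k l : ℕ) :
    word x i (k + l) = word x i k ++ word x (i + k) l := by
  rw [WAux.word_eq, WAux.word_eq, WAux.word_eq, List.range_add, List.map_append, List.map_map]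
  congr 1
  apply List.map_congr_left
  intro j _
  simp only [Function.comp]
  congr 1
  push_cast
  ring

theorem word_drop (x : Pt n) (i : ℤ) (N a : ℕ) (h : a ≤ N) :
    (word x i N).drop a = word x (i + a) (N - a) := by
  obtain ⟨b, rfl⟩ := Nat.exists_eq_add_of_le h
  rw [word_add, List.drop_append_of_le_length (by rw [word_length]), Nat.add_sub_cancel_left]
  rw [List.drop_of_length_le (by rw [word_length]), List.nil_append]

theorem word_take (x : Pt n) (i : ℤ) (N a : ℕ) (h : a ≤ N) :
    (word x i N).take a = word x i a := by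
  obtain ⟨b, rfl⟩ := Nat.exists_eq_add_of_le h
  rw [word_add, List.take_append_of_le_length (by rw [word_length])]
  rw [List.take_of_length_le (by rw [word_length])]

theorem word_drop_take (x : Pt n) (i : ℤ) (N a k : ℕ) (h : a + k ≤ N) :
    ((word x i N).drop a).take k = word x (i + a) k := by
  rw [word_drop x i N a (by omega), word_take _ _ _ _ (by omega)]

/-- infixes of a word are words -/
theorem infix_word (x : Pt n) (i : ℤ) (N : ℕ) (e : List (Fin n)) :
    e <:+: word x i N ↔ ∃ a : ℕ, a + e.length ≤ N ∧ word x (i + a) e.length = e := by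
  constructor
  · rintro ⟨s, t, h⟩
    have hl : s.length + e.length + t.length = N := by
      have := congrArg List.length h
      rw [word_length] at this
      simp only [List.length_append] at this
      exact this
    refine ⟨s.length, by omega, ?_⟩
    rw [← word_drop_take x i N s.length e.length (by omega), ← h, List.append_assoc,
      List.drop_left, List.take_left]
  · rintro ⟨a, ha, he⟩
    rw [← word_drop_take x i N a e.length ha] at he
    rw [← he]
    exact ((List.take_prefix _ _).isInfix).trans (List.drop_suffix _ _).isInfix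

theorem word_mem_PLang (x : Pt n) (i : ℤ) (k : ℕ) : word x i k ∈ PLang x :=
  ⟨i, by rw [word_length]⟩

theorem PLang_tr (s : ℤ) (x : Pt n) : PLang (tr s x) = PLang x := by
  ext w
  constructor
  · rintro ⟨i, hi⟩
    exact ⟨i + s, by rw [← word_tr]; exact hi⟩
  · rintro ⟨i, hi⟩
    refine ⟨i - s, ?_⟩
    rw [word_tr, sub_add_cancel]
    exact hi

theorem PLang_infix {x : Pt n} {e w : List (Fin n)} (hw : w ∈ PLang x) (h : e <:+: w) :
    e ∈ PLang x := by
  obtain ⟨i, hi⟩ := hw
  rw [← hi] at h
  obtain ⟨a, _, he⟩ := (infix_word x i w.length e).1 h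
  exact ⟨i + a, he⟩

theorem Lang_infix {X : Set (Pt n)} {e w : List (Fin n)} (hw : w ∈ Lang X) (h : e <:+: w) :
    e ∈ Lang X := by
  obtain ⟨x, hx, hwx⟩ := hw
  exact ⟨x, hx, PLang_infix hwx h⟩

theorem mem_Lang_iff {X : Set (Pt n)} (D : Dat X) (w : List (Fin n)) :
    w ∈ Lang X ↔ ∃ j, w ∈ D.L j := by
  constructor
  · rintro ⟨z, hz, hw⟩
    obtain ⟨j, s, rfl⟩ := (D.mem_iff z).1 hz
    rw [PLang_tr] at hw
    exact ⟨j, hw⟩
  · rintro ⟨j, hj⟩
    refine ⟨D.x j, (D.mem_iff _).2 ⟨j, 0, ?_⟩, hj⟩
    funext i
    simp [tr]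

theorem tr_mem {X : Set (Pt n)} (D : Dat X) {z : Pt n} (hz : z ∈ X) (s : ℤ) : tr s z ∈ X := by
  obtain ⟨j, t, rfl⟩ := (D.mem_iff z).1 hz
  refine (D.mem_iff _).2 ⟨j, s + t, ?_⟩
  funext i
  simp only [tr]
  congr 1
  ring

end Q67.QM
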